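import Pool.Agent.Helper46.RC.Low
import Pool.Agent.Helper46.RC.Equiv

/-!
# CV2: the cavity lemma for eigenvectors, and dimensions of low spaces

`cavity`: let `P` be the projection onto `RC.low A' σ` and `v = w - P w`. `A'` commutes with `P` (`RC.Equiv.commute_proj` or `A'` preserves `low` and its complement), so
`(A' - μ) v = (1 - P) (A' - μ) w = -(1 - P) (A w - A' w)`; `v` is orthogonal to `low A' σ`, so `σ ‖v‖² ≤ ⟪A' v, v⟫` (expand in the eigenbasis `hA'.eigenvectorBasis`, as in `RC/Low.lean`), hence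
`(σ - μ) ‖v‖² ≤ ⟪A' w - A w, v⟫ ≤ δ ‖w‖ ‖v‖`.

`low_dim_mono`: a nonzero `v ∈ low A' σ ⊓ B` has `⟪A' v, v⟫ < σ ‖v‖²` (strict: eigenbasis), so `⟪A v, v⟫ < (σ + δ) ‖v‖²`, so `v ∉ (low A (σ + δ))ᗮ`; so the projection onto `low A (σ + δ)` is injective on `low A' σ ⊓ B` and
maps it to `low A (σ + δ) ⊓ B` (`RC.Equiv.proj_mem`, `A` preserves `B`).
-/

set_option autoImplicit false

open Finset

namespace Pool.Agent.CV

open scoped InnerProductSpace

variable {E : Type*} [NormedAddCommGroup E] [InnerProductSpace ℝ E] [FiniteDimensional ℝ E]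

/-- an inner product in the eigenbasis -/
private theorem inner_eig (D : E →ₗ[ℝ] E) (hD : D.IsSymmetric) {n : ℕ}
    (hn : Module.finrank ℝ E = n) (u v : E) :
    ⟪D u, v⟫_ℝ = ∑ i, hD.eigenvalues hn i * (⟪hD.eigenvectorBasis hn i, u⟫_ℝ *
      ⟪hD.eigenvectorBasis hn i, v⟫_ℝ) := by
  rw [← (hD.eigenvectorBasis hn).sum_inner_mul_inner (D u) v]
  refine Finset.sum_congr rfl (fun i _ => ?_)
  rw [hD u _, hD.apply_eigenvectorBasis hn i]
  rw [RCLike.ofReal_real_eq_id, id_eq, real_inner_smul_right, real_inner_comm u]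
  ring

/-- the orthogonal part to the low space has a large form -/
private theorem high_ge (D : E →ₗ[ℝ] E) (hD : D.IsSymmetric) (σ : ℝ) (v : E)
    (hv : (RC.low D σ).starProjection v = 0) : σ * ‖v‖ ^ 2 ≤ ⟪D v, v⟫_ℝ := by
  have hn : Module.finrank ℝ E = Module.finrank ℝ E := rfl
  rw [RC.low_inner_pow D D hD hD hn _ (fun i => hD.apply_eigenvectorBasis hn i) v,
    RC.low_norm_sq D hD hn, Finset.mul_sum]
  refine Finset.sum_le_sum (fun i _ => ?_)
  by_cases h : hD.eigenvalues hn i < σ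
  · have h1 := RC.low_inner_proj D hD hn σ v i
    rw [if_pos h, hv, inner_zero_right] at h1
    rw [← h1]
    simp
  · exact mul_le_mul_of_nonneg_right (not_lt.1 h) (sq_nonneg _)

/-- a nonzero vector of the low space has a form strictly smaller -/
private theorem low_lt (D : E →ₗ[ℝ] E) (hD : D.IsSymmetric) (σ : ℝ) (v : E)
    (hv : v ∈ RC.low D σ) (hv0 : v ≠ 0) : ⟪D v, v⟫_ℝ < σ * ‖v‖ ^ 2 := by
  have hn : Module.finrank ℝ E = Module.finrank ℝ E := rfl
  have hpos : 0 < ∑ i, ⟪hD.eigenvectorBasis hn i, v⟫_ℝ ^ 2 := by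
    rw [← RC.low_norm_sq D hD hn]
    exact pow_pos (norm_pos_iff.2 hv0) 2
  obtain ⟨j, -, hj⟩ : ∃ j ∈ (Finset.univ : Finset (Fin (Module.finrank ℝ E))),
      0 < ⟪hD.eigenvectorBasis hn j, v⟫_ℝ ^ 2 := by
    by_contra hcon
    push Not at hcon
    exact absurd (Finset.sum_nonpos hcon) (not_le.2 hpos)
  have hproj : ∀ i, ¬ hD.eigenvalues hn i < σ → ⟪hD.eigenvectorBasis hn i, v⟫_ℝ = 0 := by
    intro i h
    have h1 := RC.low_inner_proj D hD hn σ v i
    rwa [if_neg h, Submodule.starProjection_eq_self_iff.2 hv] at h1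
  rw [RC.low_inner_pow D D hD hD hn _ (fun i => hD.apply_eigenvectorBasis hn i) v,
    RC.low_norm_sq D hD hn, Finset.mul_sum]
  refine Finset.sum_lt_sum (fun i _ => ?_) ⟨j, Finset.mem_univ _, ?_⟩
  · by_cases h : hD.eigenvalues hn i < σ
    · exact mul_le_mul_of_nonneg_right h.le (sq_nonneg _)
    · rw [hproj i h]
      simp
  · have h : hD.eigenvalues hn j < σ := by
      by_contra hcon
      rw [hproj j hcon] at hj
      simp at hj
    exact mul_lt_mul_of_pos_right h hj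

theorem cavity (A A' : E →ₗ[ℝ] E) (hA' : A'.IsSymmetric) {w : E} {μ σ δ : ℝ} (hw : A w = μ • w)
    (hσ : μ < σ) (hd : ‖A w - A' w‖ ≤ δ * ‖w‖) :
    (σ - μ) * ‖w - (RC.low A' σ).starProjection w‖ ≤ δ * ‖w‖ := by
  have hn : Module.finrank ℝ E = Module.finrank ℝ E := rfl
  set v := w - (RC.low A' σ).starProjection w with hv
  have h0 : 0 ≤ δ * ‖w‖ := le_trans (norm_nonneg _) hd
  have hvi : ∀ i, ⟪hA'.eigenvectorBasis hn i, v⟫_ℝ =
      if hA'.eigenvalues hn i < σ then 0 else ⟪hA'.eigenvectorBasis hn i, w⟫_ℝ := by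
    intro i
    rw [hv, inner_sub_right, RC.low_inner_proj A' hA' hn σ w i]
    split_ifs <;> simp
  have h1 : (σ - μ) * ‖v‖ ^ 2 ≤ ⟪A' w - A w, v⟫_ℝ := by
    rw [hw, inner_sub_left, real_inner_smul_left, inner_eig A' hA' hn w v,
      ← (hA'.eigenvectorBasis hn).sum_inner_mul_inner w v, RC.low_norm_sq A' hA' hn v,
      Finset.mul_sum, Finset.mul_sum, ← Finset.sum_sub_distrib]
    refine Finset.sum_le_sum (fun i _ => ?_)
    rw [hvi i, real_inner_comm w]
    split_ifs with h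
    · simp
    · have h2 : σ ≤ hA'.eigenvalues hn i := not_lt.1 h
      have h3 := mul_le_mul_of_nonneg_right (sub_le_sub_right h2 μ)
        (sq_nonneg ⟪hA'.eigenvectorBasis hn i, w⟫_ℝ)
      nlinarith [h3]
  have h2 : ⟪A' w - A w, v⟫_ℝ ≤ δ * ‖w‖ * ‖v‖ := by
    refine le_trans (real_inner_le_norm _ _) ?_
    rw [norm_sub_rev]
    exact mul_le_mul_of_nonneg_right hd (norm_nonneg _)
  rcases eq_or_lt_of_le (norm_nonneg v) with h3 | h3
  · rw [← h3, mul_zero]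
    exact h0
  · have h4 : (σ - μ) * ‖v‖ * ‖v‖ ≤ δ * ‖w‖ * ‖v‖ := by nlinarith [h1, h2]
    exact le_of_mul_le_mul_right h4 h3

theorem low_dim_mono (A A' : E →ₗ[ℝ] E) (hA : A.IsSymmetric) (hA' : A'.IsSymmetric) {δ : ℝ}
    (h : ∀ v, ⟪A v, v⟫_ℝ ≤ ⟪A' v, v⟫_ℝ + δ * ‖v‖ ^ 2) (B : Submodule ℝ E)
    (hAB : ∀ v ∈ B, A v ∈ B) (σ : ℝ) :
    Module.finrank ℝ (RC.low A' σ ⊓ B : Submodule ℝ E) ≤
      Module.finrank ℝ (RC.low A (σ + δ) ⊓ B : Submodule ℝ E) := by
  set P : E →ₗ[ℝ] E := (RC.low A (σ + δ)).starProjection.toLinearMap with hP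
  have hmap : ∀ v : (RC.low A' σ ⊓ B : Submodule ℝ E), P v ∈ (RC.low A (σ + δ) ⊓ B) := by
    intro v
    exact ⟨Submodule.starProjection_apply_mem _ _, RC.Equiv.proj_mem hA hAB _ v.2.2⟩
  set f : (RC.low A' σ ⊓ B : Submodule ℝ E) →ₗ[ℝ] (RC.low A (σ + δ) ⊓ B : Submodule ℝ E) :=
    LinearMap.codRestrict _ (P.comp (Submodule.subtype _)) hmap with hf
  refine LinearMap.finrank_le_finrank_of_injective (f := f) ?_
  rw [← LinearMap.ker_eq_bot, LinearMap.ker_eq_bot']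
  intro v hv
  by_contra hne
  have hv0 : (v : E) ≠ 0 := fun h0 => hne (Subtype.ext h0)
  have h1 := low_lt A' hA' σ v v.2.1 hv0
  have h2 : (RC.low A (σ + δ)).starProjection (v : E) = 0 := congrArg Subtype.val hv
  have h3 := high_ge A hA (σ + δ) v h2
  have h4 := h v
  nlinarith [h1, h3, h4]

end Pool.Agent.CV
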