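import Pool.Agent.Helper84.CV.Defs

/-!
# CV3: counting the low eigenvalues by the cavity method

`W = low (lapl L x) τ ⊓ B` is invariant under the symmetric operator `A = lapl L x`; take an orthonormal eigenbasis `w k`, `k : Fin d`, of `W`, `A (w k) = μ k • w k`, `μ k < τ` (an eigenvector of `A` in `low A τ` has
eigenvalue `< τ`, or use `⟪A w, w⟫ < τ`; e.g. diagonalise the restriction of `A` to `W`). `1 - 2 A = (1 / m) ∑ (L (x i) + L (x i)⁻¹) / 2`, so `1 - 2 τ ≤ 1 - 2 μ k = (1 / m) ∑ i, ⟪L (x i) (w k), w k⟫`.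
By `cavity` (`A' = lout L x i`, `A - A' = one1`, `δ = 1 / m`, `σ = τ + Δ`, `σ - μ k ≥ Δ`): `‖w k - P i (w k)‖ ≤ η := 1 / (m Δ)`, so
`⟪L (x i) (w k), w k⟫ ≤ ⟪L (x i) (P i (w k)), P i (w k)⟫ + 2 η ≤ ‖P i (L (x i) (P i (w k)))‖ + 2 η`. Sum over `k`, `i`, Cauchy-Schwarz:
`(m d / 2)² ≤ (∑ i k, ‖Y i (w k)‖)² ≤ m d ∑ i k, ‖Y i (w k)‖²`, `Y i = P i * L (x i) * P i`, and `∑ k, ‖Y i (w k)‖² ≤ trP B (L (x i) * P i * L (x i)⁻¹ * P i)` (`⟪P L⁻¹ P L P v, v⟫ = ‖P L P v‖²`; `trP` of a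
nonnegative form is at least the sum over an orthonormal family in `B`: `trP_sub_le`, `trP_eq_sum`; cyclicity `trP_comm`).
-/

set_option autoImplicit false

open Finset

namespace Pool.Agent.CV

open scoped InnerProductSpace

variable {E : Type*} [NormedAddCommGroup E] [InnerProductSpace ℝ E] [FiniteDimensional ℝ E]
  {G : Type*} [Group G]

private theorem cnt_eig_lt {A : E →ₗ[ℝ] E} (hA : A.IsSymmetric) {w : E} {μ τ : ℝ}
    (hw : A w = μ • w) (hm : w ∈ RC.low A τ) (h0 : w ≠ 0) : μ < τ := by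
  by_contra h
  have hle : RC.low A τ ≤ (Submodule.span ℝ {w})ᗮ := by
    refine iSup_le ?_
    rintro ⟨ν, hν⟩ x hx
    rw [Submodule.mem_orthogonal_singleton_iff_inner_right]
    have h1 : A x = ν • x := Module.End.mem_eigenspace_iff.1 hx
    have h2 : ⟪A w, x⟫_ℝ = ⟪w, A x⟫_ℝ := hA w x
    rw [hw, h1, real_inner_smul_left, real_inner_smul_right] at h2
    have h3 : (μ - ν) * ⟪w, x⟫_ℝ = 0 := by linarith
    rcases mul_eq_zero.1 h3 with h4 | h4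
    · exfalso
      have h5 : ν < τ := hν
      have h6 := not_lt.1 h
      linarith
    · exact h4
  have h5 := hle hm
  rw [Submodule.mem_orthogonal_singleton_iff_inner_right] at h5
  exact h0 (inner_self_eq_zero.1 h5)

private theorem cnt_adj (L : G →* (E →ₗ[ℝ] E)) (hL : ∀ g v, ‖L g v‖ = ‖v‖) (g : G) (v w : E) :
    ⟪L g⁻¹ v, w⟫_ℝ = ⟪v, L g w⟫_ℝ := by
  have h1 : L g (L g⁻¹ v) = v := by
    rw [← Module.End.mul_apply, ← map_mul, mul_inv_cancel, map_one, Module.End.one_apply]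
  have h2 := RC.Equiv.inner_pres (L g) (hL g) (L g⁻¹ v) w
  rw [h1] at h2
  exact h2.symm

private theorem cnt_PP_idem (L : G →* (E →ₗ[ℝ] E)) {m : ℕ} (x : Fin m → G) (i : Fin m) (σ : ℝ)
    (v : E) : PP L x i σ (PP L x i σ v) = PP L x i σ v :=
  Submodule.starProjection_eq_self_iff.2 (Submodule.starProjection_apply_mem _ v)

private theorem cnt_PP_norm (L : G →* (E →ₗ[ℝ] E)) {m : ℕ} (x : Fin m → G) (i : Fin m) (σ : ℝ)
    (v : E) : ‖PP L x i σ v‖ ≤ ‖v‖ :=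
  Submodule.norm_starProjection_apply_le _ v

/-- The bound for one generator. -/
private theorem cnt_one (L : G →* (E →ₗ[ℝ] E)) (hL : ∀ g v, ‖L g v‖ = ‖v‖) {m : ℕ} (hm : 1 ≤ m)
    (x : Fin m → G) {τ Δ μ : ℝ} (hΔ : 0 < Δ) {w : E} (hw : RS.lapl L x w = μ • w)
    (h1 : ‖w‖ = 1) (hμ : μ < τ) (i : Fin m) :
    ⟪L (x i) w, w⟫_ℝ ≤
      ‖PP L x i (τ + Δ) (L (x i) (PP L x i (τ + Δ) w))‖ + 2 / (m * Δ) := by
  have hmR : (0 : ℝ) < m := by exact_mod_cast hm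
  have hd : ‖RS.lapl L x w - lout L x i w‖ ≤ (m : ℝ)⁻¹ * ‖w‖ := by
    rw [lout_apply, sub_sub_cancel]
    exact one1_norm L hL m (x i) w
  have hcav := cavity (RS.lapl L x) (lout L x i) (lout_symm L hL x i) (σ := τ + Δ) hw
    (by linarith) hd
  rw [h1, mul_one] at hcav
  set P := PP L x i (τ + Δ) with hP
  have hcav' : (τ + Δ - μ) * ‖w - P w‖ ≤ (m : ℝ)⁻¹ := hcav
  have hη : ‖w - P w‖ ≤ 1 / (m * Δ) := by
    rw [le_div_iff₀ (by positivity)]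
    have h2 : Δ * ‖w - P w‖ ≤ (m : ℝ)⁻¹ := by
      refine le_trans (mul_le_mul_of_nonneg_right ?_ (norm_nonneg _)) hcav'
      linarith
    have h3 : ‖w - P w‖ * (m * Δ) = m * (Δ * ‖w - P w‖) := by ring
    rw [h3]
    calc (m : ℝ) * (Δ * ‖w - P w‖) ≤ m * (m : ℝ)⁻¹ := mul_le_mul_of_nonneg_left h2 hmR.le
      _ = 1 := mul_inv_cancel₀ hmR.ne'
  have hPn : ‖P w‖ ≤ 1 := by
    have := cnt_PP_norm L x i (τ + Δ) w
    rwa [h1] at this
  have e1 : ⟪L (x i) w, w⟫_ℝ = ⟪L (x i) (P w), P w⟫_ℝ + ⟪L (x i) (w - P w), w⟫_ℝ +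
      ⟪L (x i) (P w), w - P w⟫_ℝ := by
    rw [map_sub, inner_sub_left, inner_sub_right]
    ring
  have e2 : ⟪L (x i) (w - P w), w⟫_ℝ ≤ 1 / (m * Δ) := by
    refine (real_inner_le_norm _ _).trans ?_
    rw [hL, h1, mul_one]
    exact hη
  have e3 : ⟪L (x i) (P w), w - P w⟫_ℝ ≤ 1 / (m * Δ) := by
    refine (real_inner_le_norm _ _).trans ?_
    rw [hL]
    calc ‖P w‖ * ‖w - P w‖ ≤ 1 * ‖w - P w‖ := mul_le_mul_of_nonneg_right hPn (norm_nonneg _)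
      _ ≤ 1 / (m * Δ) := by rw [one_mul]; exact hη
  have e4 : ⟪L (x i) (P w), P w⟫_ℝ ≤ ‖P (L (x i) (P w))‖ := by
    have h4 : ⟪L (x i) (P w), P w⟫_ℝ = ⟪P (L (x i) (P w)), w⟫_ℝ :=
      (PP_symm L x i (τ + Δ) (L (x i) (P w)) w).symm
    rw [h4]
    refine (real_inner_le_norm _ _).trans ?_
    rw [h1, mul_one]
  have e5 : (2 : ℝ) / (m * Δ) = 1 / (m * Δ) + 1 / (m * Δ) := by ring
  rw [e1, e5]
  linarith

/-- The sum over the generators for one eigenvector. -/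
private theorem cnt_sum (L : G →* (E →ₗ[ℝ] E)) (hL : ∀ g v, ‖L g v‖ = ‖v‖) {m : ℕ} (hm : 1 ≤ m)
    (x : Fin m → G) {τ Δ μ : ℝ} (hΔ : 0 < Δ) (hc : 1 / 2 ≤ 1 - 2 * τ - 2 / (m * Δ)) {w : E}
    (hw : RS.lapl L x w = μ • w) (h1 : ‖w‖ = 1) (hμ : μ < τ) :
    (m : ℝ) / 4 ≤ ∑ i, ‖PP L x i (τ + Δ) (L (x i) (PP L x i (τ + Δ) w))‖ ^ 2 := by
  have hmR : (0 : ℝ) < m := by exact_mod_cast hm
  have hE : ∑ i, ⟪L (x i) w, w⟫_ℝ = m * (1 - 2 * μ) := by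
    have h2 := RS.lapl_inner L hL x w
    rw [hw, real_inner_smul_left, real_inner_self_eq_norm_sq, h1, one_pow, mul_one] at h2
    have h3 : ∀ i, ‖L (x i) w - w‖ ^ 2 = 2 - 2 * ⟪L (x i) w, w⟫_ℝ := by
      intro i
      rw [@norm_sub_sq_real, hL, h1]
      ring
    rw [Finset.sum_congr rfl fun i _ => h3 i, Finset.sum_sub_distrib, Finset.sum_const,
      Finset.card_univ, Fintype.card_fin, ← Finset.mul_sum, nsmul_eq_mul] at h2
    have h4 : (4 * (m : ℝ)) * μ = m * 2 - 2 * ∑ i, ⟪L (x i) w, w⟫_ℝ := by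
      rw [h2, ← mul_assoc, mul_inv_cancel₀ (by positivity), one_mul]
    linarith
  have h2 : ∑ i, ⟪L (x i) w, w⟫_ℝ ≤
      ∑ i, (‖PP L x i (τ + Δ) (L (x i) (PP L x i (τ + Δ) w))‖ + 2 / (m * Δ)) :=
    Finset.sum_le_sum fun i _ => cnt_one L hL hm x hΔ hw h1 hμ i
  rw [Finset.sum_add_distrib, Finset.sum_const, Finset.card_univ, Fintype.card_fin,
    nsmul_eq_mul, hE] at h2
  set s := ∑ i, ‖PP L x i (τ + Δ) (L (x i) (PP L x i (τ + Δ) w))‖ with hs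
  have h3 : (m : ℝ) / 2 ≤ s := by
    have h4 : (m : ℝ) * (1 / 2) ≤ m * (1 - 2 * τ - 2 / (m * Δ)) :=
      mul_le_mul_of_nonneg_left hc hmR.le
    have h5 : (m : ℝ) * (1 - 2 * τ) ≤ m * (1 - 2 * μ) :=
      mul_le_mul_of_nonneg_left (by linarith) hmR.le
    have h6 : (m : ℝ) * (1 - 2 * τ - 2 / (m * Δ)) = m * (1 - 2 * τ) - m * (2 / (m * Δ)) := by ring
    rw [h6] at h4
    linarith
  have h4 : s ^ 2 ≤ m * ∑ i, ‖PP L x i (τ + Δ) (L (x i) (PP L x i (τ + Δ) w))‖ ^ 2 := by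
    have := sq_sum_le_card_mul_sum_sq (s := (univ : Finset (Fin m)))
      (f := fun i => ‖PP L x i (τ + Δ) (L (x i) (PP L x i (τ + Δ) w))‖)
    rw [Finset.card_univ, Fintype.card_fin] at this
    exact this
  have h5 : (m : ℝ) * (m / 4) ≤
      m * ∑ i, ‖PP L x i (τ + Δ) (L (x i) (PP L x i (τ + Δ) w))‖ ^ 2 := by
    refine le_trans ?_ h4
    nlinarith
  exact le_of_mul_le_mul_left h5 hmR

private theorem cnt_trace (L : G →* (E →ₗ[ℝ] E)) (hL : ∀ g v, ‖L g v‖ = ‖v‖) {m : ℕ}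
    (x : Fin m → G) (B W : Submodule ℝ E) (hB : ∀ g, ∀ v ∈ B, L g v ∈ B) (hWB : W ≤ B) (σ : ℝ)
    {ι : Type*} [Fintype ι] (b : OrthonormalBasis ι ℝ W) (i : Fin m) :
    ∑ k, ‖PP L x i σ (L (x i) (PP L x i σ (b k : E)))‖ ^ 2 ≤
      RS.trP B (L (x i) * PP L x i σ * L (x i)⁻¹ * PP L x i σ) := by
  set P := PP L x i σ with hP
  have hinn : ∀ v, ⟪(P * L (x i)⁻¹ * P * L (x i) * P) v, v⟫_ℝ = ‖P (L (x i) (P v))‖ ^ 2 := by
    intro v
    have h1 : (P * L (x i)⁻¹ * P * L (x i) * P) v = P (L (x i)⁻¹ (P (L (x i) (P v)))) := rfl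
    have h2 : ∀ u v, ⟪P u, v⟫_ℝ = ⟪u, P v⟫_ℝ := fun u v => PP_symm L x i σ u v
    rw [h1, h2, cnt_adj L hL]
    have h3 : ⟪P (L (x i) (P v)), L (x i) (P v)⟫_ℝ =
        ⟪P (L (x i) (P v)), P (L (x i) (P v))⟫_ℝ := by
      rw [← h2, cnt_PP_idem]
    rw [h3, real_inner_self_eq_norm_sq]
  have hPB : ∀ v ∈ B, P v ∈ B := PP_mem L hL B hB x i σ
  have h1 : ∑ k, ‖P (L (x i) (P (b k : E)))‖ ^ 2 =
      RS.trP W (P * L (x i)⁻¹ * P * L (x i) * P) := by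
    rw [RS.trP_eq_sum W _ b]
    exact Finset.sum_congr rfl fun k _ => (hinn _).symm
  have h2 : RS.trP W (P * L (x i)⁻¹ * P * L (x i) * P) ≤
      RS.trP B (P * L (x i)⁻¹ * P * L (x i) * P) :=
    RS.trP_sub_le W B hWB _ fun v _ => by rw [hinn]; positivity
  have h3 : RS.trP B (P * L (x i)⁻¹ * P * L (x i) * P) =
      RS.trP B (L (x i) * P * L (x i)⁻¹ * P) := by
    have e1 : P * L (x i)⁻¹ * P * L (x i) * P = (P * L (x i)⁻¹ * P) * (L (x i) * P) := by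
      simp only [mul_assoc]
    rw [e1, RS.trP_comm B (P * L (x i)⁻¹ * P) (L (x i) * P)
      (fun v hv => hPB _ (hB _ _ (hPB _ hv))) (fun v hv => hB _ _ (hPB _ hv))]
    refine RS.trP_congr B _ _ fun v _ => ?_
    change L (x i) (P (P (L (x i)⁻¹ (P v)))) = L (x i) (P (L (x i)⁻¹ (P v)))
    rw [cnt_PP_idem]
  rw [h1, ← h3]
  exact h2

theorem count_low (L : G →* (E →ₗ[ℝ] E)) (hL : ∀ g v, ‖L g v‖ = ‖v‖) {m : ℕ} (hm : 1 ≤ m)
    (x : Fin m → G) (B : Submodule ℝ E) (hB : ∀ g, ∀ v ∈ B, L g v ∈ B) {τ Δ : ℝ} (hΔ : 0 < Δ)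
    (hc : 1 / 2 ≤ 1 - 2 * τ - 2 / (m * Δ)) :
    (m : ℝ) * Module.finrank ℝ (RC.low (RS.lapl L x) τ ⊓ B : Submodule ℝ E) ≤
      4 * ∑ i, RS.trP B (L (x i) * PP L x i (τ + Δ) * L (x i)⁻¹ * PP L x i (τ + Δ)) := by
  classical
  have hA : (RS.lapl L x).IsSymmetric := RS.lapl_symm L hL x
  have hAW : ∀ v ∈ (RC.low (RS.lapl L x) τ ⊓ B : Submodule ℝ E),
      RS.lapl L x v ∈ (RC.low (RS.lapl L x) τ ⊓ B : Submodule ℝ E) := by
    intro v hv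
    refine ⟨RC.Equiv.low_map (A := RS.lapl L x) (D := RS.lapl L x) (D' := RS.lapl L x)
      (fun _ => rfl) τ hv.1, ?_⟩
    rw [lapl_eq_sum, LinearMap.sum_apply]
    refine Submodule.sum_mem _ fun j _ => ?_
    rw [one1_apply]
    exact B.smul_mem _ (B.sub_mem (B.sub_mem (B.smul_mem _ hv.2) (hB _ v hv.2)) (hB _ v hv.2))
  have hR := hA.restrict_invariant hAW
  have hb : ∀ k, RS.lapl L x ((hR.eigenvectorBasis rfl k :
      (RC.low (RS.lapl L x) τ ⊓ B : Submodule ℝ E)) : E) =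
      hR.eigenvalues rfl k • ((hR.eigenvectorBasis rfl k :
      (RC.low (RS.lapl L x) τ ⊓ B : Submodule ℝ E)) : E) := by
    intro k
    have h := congrArg Subtype.val (hR.apply_eigenvectorBasis rfl k)
    exact h
  have hn : ∀ k, ‖((hR.eigenvectorBasis rfl k :
      (RC.low (RS.lapl L x) τ ⊓ B : Submodule ℝ E)) : E)‖ = 1 :=
    fun k => (hR.eigenvectorBasis rfl).orthonormal.1 k
  have hμ : ∀ k, hR.eigenvalues rfl k < τ := fun k =>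
    cnt_eig_lt hA (hb k) (hR.eigenvectorBasis rfl k).2.1 (by
      intro h
      have h1 := hn k
      rw [h, norm_zero] at h1
      exact zero_ne_one h1)
  have h1 : ∀ k, (m : ℝ) / 4 ≤ ∑ i, ‖PP L x i (τ + Δ) (L (x i) (PP L x i (τ + Δ)
      ((hR.eigenvectorBasis rfl k : (RC.low (RS.lapl L x) τ ⊓ B : Submodule ℝ E)) : E)))‖ ^ 2 :=
    fun k => cnt_sum L hL hm x hΔ hc (hb k) (hn k) (hμ k)
  have h2 := Finset.sum_le_sum fun k (_ : k ∈ (univ : Finset (Fin (Module.finrank ℝ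
    (RC.low (RS.lapl L x) τ ⊓ B : Submodule ℝ E))))) => h1 k
  rw [Finset.sum_const, Finset.card_univ, Fintype.card_fin, nsmul_eq_mul, Finset.sum_comm] at h2
  have h3 := h2.trans (Finset.sum_le_sum fun i _ =>
    cnt_trace L hL x B _ hB inf_le_right (τ + Δ) (hR.eigenvectorBasis rfl) i)
  linarith

end Pool.Agent.CV
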