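import Pool.Agent.Helper36.RS.Lapl
import Pool.Agent.Helper36.RS.Scalar
import Pool.Agent.Helper36.RS.Tr
import Pool.Agent.Helper84.CV.Cav

/-!
# CV0: the operator `lapl` without one generator
-/

set_option autoImplicit false

open Finset

namespace Pool.Agent.CV

open scoped InnerProductSpace

variable {E : Type*} [NormedAddCommGroup E] [InnerProductSpace ℝ E] [FiniteDimensional ℝ E]
  {G : Type*} [Group G]

/-- The contribution of one generator. -/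
noncomputable def one1 (L : G →* (E →ₗ[ℝ] E)) (m : ℕ) (a : G) : E →ₗ[ℝ] E :=
  (4 * (m : ℝ))⁻¹ • ((2 : ℝ) • 1 - L a - L a⁻¹)

/-- The operator `lapl L x` without the generator `x i`. -/
noncomputable def lout (L : G →* (E →ₗ[ℝ] E)) {m : ℕ} (x : Fin m → G) (i : Fin m) :
    E →ₗ[ℝ] E := RS.lapl L x - one1 L m (x i)

/-- The projection onto the low space of `lout`. -/
noncomputable def PP (L : G →* (E →ₗ[ℝ] E)) {m : ℕ} (x : Fin m → G) (i : Fin m) (σ : ℝ) :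
    E →ₗ[ℝ] E := (RC.low (lout L x i) σ).starProjection.toLinearMap

theorem one1_apply (L : G →* (E →ₗ[ℝ] E)) (m : ℕ) (a : G) (v : E) :
    one1 L m a v = (4 * (m : ℝ))⁻¹ • ((2 : ℝ) • v - L a v - L a⁻¹ v) := by
  simp [one1]

theorem one1_inner (L : G →* (E →ₗ[ℝ] E)) (hL : ∀ g v, ‖L g v‖ = ‖v‖) (m : ℕ) (a : G) (v : E) :
    ⟪one1 L m a v, v⟫_ℝ = (4 * (m : ℝ))⁻¹ * ‖L a v - v‖ ^ 2 := by
  rw [one1_apply, real_inner_smul_left, inner_sub_left, inner_sub_left, real_inner_smul_left,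
    real_inner_self_eq_norm_sq, RS.two_sub_inner L hL]

theorem one1_nonneg (L : G →* (E →ₗ[ℝ] E)) (hL : ∀ g v, ‖L g v‖ = ‖v‖) (m : ℕ) (a : G) (v : E) :
    0 ≤ ⟪one1 L m a v, v⟫_ℝ := by
  rw [one1_inner L hL]
  positivity

theorem one1_norm (L : G →* (E →ₗ[ℝ] E)) (hL : ∀ g v, ‖L g v‖ = ‖v‖) (m : ℕ) (a : G) (v : E) :
    ‖one1 L m a v‖ ≤ (m : ℝ)⁻¹ * ‖v‖ := by
  rw [one1_apply, norm_smul]
  have h1 : ‖(2 : ℝ) • v - L a v - L a⁻¹ v‖ ≤ 4 * ‖v‖ := by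
    refine (norm_sub_le _ _).trans ?_
    have h2 := norm_sub_le ((2 : ℝ) • v) (L a v)
    rw [norm_smul, hL] at h2
    rw [hL]
    norm_num at h2
    linarith
  have h3 : ‖(4 * (m : ℝ))⁻¹‖ = (4 * (m : ℝ))⁻¹ := by
    rw [Real.norm_eq_abs, abs_of_nonneg (by positivity)]
  rw [h3]
  calc (4 * (m : ℝ))⁻¹ * ‖(2 : ℝ) • v - L a v - L a⁻¹ v‖ ≤ (4 * (m : ℝ))⁻¹ * (4 * ‖v‖) :=
        mul_le_mul_of_nonneg_left h1 (by positivity)
    _ = (m : ℝ)⁻¹ * ‖v‖ := by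
        rw [mul_inv]
        ring

theorem one1_le (L : G →* (E →ₗ[ℝ] E)) (hL : ∀ g v, ‖L g v‖ = ‖v‖) (m : ℕ) (a : G) (v : E) :
    ⟪one1 L m a v, v⟫_ℝ ≤ (m : ℝ)⁻¹ * ‖v‖ ^ 2 := by
  refine (real_inner_le_norm _ _).trans ?_
  rw [pow_two, ← mul_assoc]
  exact mul_le_mul_of_nonneg_right (one1_norm L hL m a v) (norm_nonneg v)

theorem one1_symm (L : G →* (E →ₗ[ℝ] E)) (hL : ∀ g v, ‖L g v‖ = ‖v‖) (m : ℕ) (a : G) :
    (one1 L m a).IsSymmetric := by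
  have h1 : ∀ (g : G) (u v : E), ⟪L g u, v⟫_ℝ = ⟪u, L g⁻¹ v⟫_ℝ := by
    intro g u v
    have h2 := RC.Equiv.inner_pres (L g) (hL g) u (L g⁻¹ v)
    have h3 : L g (L g⁻¹ v) = v := by
      rw [← Module.End.mul_apply, ← map_mul, mul_inv_cancel, map_one]
      rfl
    rw [h3] at h2
    exact h2
  intro u v
  rw [one1_apply, one1_apply, real_inner_smul_left, real_inner_smul_right]
  congr 1
  rw [inner_sub_left, inner_sub_left, inner_sub_right, inner_sub_right, real_inner_smul_left,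
    real_inner_smul_right, h1 a, h1 a⁻¹, inv_inv]
  ring

theorem lout_apply (L : G →* (E →ₗ[ℝ] E)) {m : ℕ} (x : Fin m → G) (i : Fin m) (v : E) :
    lout L x i v = RS.lapl L x v - one1 L m (x i) v := rfl

theorem lapl_eq_sum (L : G →* (E →ₗ[ℝ] E)) {m : ℕ} (x : Fin m → G) :
    RS.lapl L x = ∑ i, one1 L m (x i) := by
  unfold RS.lapl one1
  rw [Finset.smul_sum]

theorem lout_eq_sum (L : G →* (E →ₗ[ℝ] E)) {m : ℕ} (x : Fin m → G) (i : Fin m) :
    lout L x i = ∑ j ∈ univ.erase i, one1 L m (x j) := by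
  unfold lout
  rw [lapl_eq_sum, ← Finset.add_sum_erase _ _ (Finset.mem_univ i), add_sub_cancel_left]


/-- `lout` does not depend on the removed generator. -/
theorem lout_update (L : G →* (E →ₗ[ℝ] E)) {m : ℕ} (x : Fin m → G) (i : Fin m) (a : G) :
    lout L (Function.update x i a) i = lout L x i := by
  rw [lout_eq_sum, lout_eq_sum]
  refine Finset.sum_congr rfl fun j hj => ?_
  rw [Function.update_of_ne (Finset.ne_of_mem_erase hj)]

theorem lout_symm (L : G →* (E →ₗ[ℝ] E)) (hL : ∀ g v, ‖L g v‖ = ‖v‖) {m : ℕ} (x : Fin m → G)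
    (i : Fin m) : (lout L x i).IsSymmetric :=
  (RS.lapl_symm L hL x).sub (one1_symm L hL m (x i))

theorem lout_comm (L R : G →* (E →ₗ[ℝ] E)) (hLR : ∀ g h v, L g (R h v) = R h (L g v)) {m : ℕ}
    (x : Fin m → G) (i : Fin m) (g : G) (v : E) : lout L x i (R g v) = R g (lout L x i v) := by
  have h1 : ∀ a v, one1 L m a (R g v) = R g (one1 L m a v) := by
    intro a v
    rw [one1_apply, one1_apply, map_smul, map_sub, map_sub, map_smul, hLR, hLR]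
  rw [lout_eq_sum, LinearMap.sum_apply, LinearMap.sum_apply, map_sum]
  exact Finset.sum_congr rfl fun j _ => h1 _ _

theorem lout_pres (L : G →* (E →ₗ[ℝ] E)) (B : Submodule ℝ E) (hB : ∀ g, ∀ v ∈ B, L g v ∈ B)
    {m : ℕ} (x : Fin m → G) (i : Fin m) : ∀ v ∈ B, lout L x i v ∈ B := by
  intro v hv
  rw [lout_eq_sum, LinearMap.sum_apply]
  refine Submodule.sum_mem _ fun j _ => ?_
  rw [one1_apply]
  exact B.smul_mem _ (B.sub_mem (B.sub_mem (B.smul_mem _ hv) (hB _ v hv)) (hB _ v hv))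

theorem PP_update (L : G →* (E →ₗ[ℝ] E)) {m : ℕ} (x : Fin m → G) (i : Fin m) (a : G) (σ : ℝ) :
    PP L (Function.update x i a) i σ = PP L x i σ := by
  have h : ∀ (D D' : E →ₗ[ℝ] E), D = D' → (RC.low D σ).starProjection.toLinearMap =
      (RC.low D' σ).starProjection.toLinearMap := by
    rintro D _ rfl
    rfl
  exact h _ _ (lout_update L x i a)

theorem PP_symm (L : G →* (E →ₗ[ℝ] E)) {m : ℕ} (x : Fin m → G) (i : Fin m) (σ : ℝ) :
    (PP L x i σ).IsSymmetric := Submodule.starProjection_isSymmetric _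

theorem PP_comm (L R : G →* (E →ₗ[ℝ] E)) (hR : ∀ g v, ‖R g v‖ = ‖v‖)
    (hLR : ∀ g h v, L g (R h v) = R h (L g v)) {m : ℕ}
    (x : Fin m → G) (i : Fin m) (σ : ℝ) (g : G) (v : E) :
    PP L x i σ (R g v) = R g (PP L x i σ v) :=
  RC.Equiv.proj_conj (A' := R g⁻¹) (hR g) (fun v => by simp) (fun v => by simp)
    (lout_comm L R hLR x i g) σ v

theorem PP_mem (L : G →* (E →ₗ[ℝ] E)) (hL : ∀ g v, ‖L g v‖ = ‖v‖) (B : Submodule ℝ E)
    (hB : ∀ g, ∀ v ∈ B, L g v ∈ B) {m : ℕ} (x : Fin m → G) (i : Fin m) (σ : ℝ) :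
    ∀ v ∈ B, PP L x i σ v ∈ B := fun v hv =>
  RC.Equiv.proj_mem (lout_symm L hL x i) (lout_pres L B hB x i) σ hv

theorem PP_tr (L : G →* (E →ₗ[ℝ] E)) (hL : ∀ g v, ‖L g v‖ = ‖v‖) (B : Submodule ℝ E)
    (hB : ∀ g, ∀ v ∈ B, L g v ∈ B) {m : ℕ} (x : Fin m → G) (i : Fin m) (σ : ℝ) :
    RS.trP B (PP L x i σ) = Module.finrank ℝ (RC.low (lout L x i) σ ⊓ B : Submodule ℝ E) :=
  RS.trP_proj _ _ (PP_mem L hL B hB x i σ)

end Pool.Agent.CV
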