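import Pool.Agent.Helper36.RS.Det
import Pool.Agent.Helper36.RS.TwoSided

/-!
# CV8: the energy of `x` (deterministic part)

As `energy_sup`, `total_energy` in `RS/Det.lean`, for `A = lapl L x` itself (no averaging): on `⨆ j, B j` (invariant, no eigenvalue below `τ`) `⟪A f, f⟫ ≥ τ ‖f‖²`, and `⟪A f, f⟫ = (4 m)⁻¹ ∑ ‖L (x i) f - f‖²` (`RS.lapl_inner`); on `degE n r`, sum zero: `RS.dpart`.
The two parts are orthogonal and invariant.
-/

set_option autoImplicit false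

open Finset

namespace Pool.Agent.CV

open scoped InnerProductSpace
open Pool.Agent.RS

section Abs

variable {E : Type*} [NormedAddCommGroup E] [InnerProductSpace ℝ E] [FiniteDimensional ℝ E]
  {G : Type*} [Group G]

private theorem energy_one (L R : G →* (E →ₗ[ℝ] E))
    (hL : ∀ g v, ‖L g v‖ = ‖v‖) (hLR : ∀ g h v, L g (R h v) = R h (L g v)) {q : ℕ}
    (B : Fin q → Submodule ℝ E) (hB : ∀ i, ∀ g, ∀ v ∈ B i, L g v ∈ B i) {m : ℕ} (hm : 1 ≤ m)
    (x : Fin m → G) {τ : ℝ} (hτ : 0 < τ)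
    (hlow : ∀ i, RC.low (lapl L x) τ ⊓ B i = ⊥)
    (v : E) (hv : v ∈ ⨆ i, B i) :
    4 * m * τ * ‖v‖ ^ 2 ≤ ∑ i, ‖L (x i) v - v‖ ^ 2 := by
  have hm0 : (0 : ℝ) < m := by exact_mod_cast hm
  set A := lapl L x with hAdef
  have hA : Adm R B A := lapl_adm L R hL hLR B hB x
  have hP : (RC.low A τ).starProjection v = 0 := by
    have hle : (⨆ i, B i) ≤ LinearMap.ker (RC.low A τ).starProjection.toLinearMap := by
      refine iSup_le fun i w hw => ?_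
      rw [LinearMap.mem_ker]
      have h1 : (RC.low A τ).starProjection w ∈ B i :=
        RC.Equiv.proj_mem hA.symm (hA.pres i) τ hw
      have h2 : (RC.low A τ).starProjection w ∈ RC.low A τ ⊓ B i :=
        ⟨Submodule.starProjection_apply_mem _ _, h1⟩
      rw [hlow i] at h2
      exact (Submodule.mem_bot ℝ).1 h2
    exact LinearMap.mem_ker.1 (hle hv)
  have h1 := RC.low_proj A hA.symm hA.nonneg τ hτ v
  rw [hP, sub_zero] at h1
  have h2 : ⟪A v, v⟫_ℝ = (4 * (m : ℝ))⁻¹ * ∑ i, ‖L (x i) v - v‖ ^ 2 := by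
    rw [hAdef]
    exact lapl_inner L hL x v
  rw [h2] at h1
  have h3 : 4 * (m : ℝ) * (τ * ‖v‖ ^ 2) ≤
      4 * (m : ℝ) * ((4 * (m : ℝ))⁻¹ * ∑ i, ‖L (x i) v - v‖ ^ 2) :=
    mul_le_mul_of_nonneg_left h1 (by positivity)
  have h4 : 4 * (m : ℝ) * ((4 * (m : ℝ))⁻¹ * ∑ i, ‖L (x i) v - v‖ ^ 2) =
      ∑ i, ‖L (x i) v - v‖ ^ 2 := by
    rw [← mul_assoc, mul_inv_cancel₀ (by positivity), one_mul]
  rw [h4] at h3
  calc 4 * m * τ * ‖v‖ ^ 2 = 4 * (m : ℝ) * (τ * ‖v‖ ^ 2) := by ring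
    _ ≤ _ := h3

end Abs

theorem energy_all {n m r q : ℕ} {ε τ : ℝ} (hm : 1 ≤ m) (hrn : r ≤ n) (hτ : 0 < τ)
    (x : Fin m → alternatingGroup (Fin n))
    (hx : RC.GapUpTo n m r ε (fun i => (x i : Equiv.Perm (Fin n))))
    (B : Fin q → Submodule ℝ (EuclideanSpace ℝ (alternatingGroup (Fin n))))
    (hB : ∀ i, MinInv (lt (alternatingGroup (Fin n))) (rt (alternatingGroup (Fin n))) (B i))
    (hsup : (⨆ i, B i) = (degE n r)ᗮ)
    (hlow : ∀ i, RC.low (lapl (lt (alternatingGroup (Fin n))) x) τ ⊓ B i = ⊥)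
    (f : EuclideanSpace ℝ (alternatingGroup (Fin n))) (h0 : ∑ g, f g = 0) :
    min (4 * m * τ) (2 * ε) * ‖f‖ ^ 2 ≤
      ∑ i, ‖lt (alternatingGroup (Fin n)) (x i) f - f‖ ^ 2 := by
  set f₁ := (degE n r).starProjection f with hf₁
  set f₂ := f - f₁ with hf₂
  have hm₁ : f₁ ∈ degE n r := Submodule.starProjection_apply_mem _ _
  have hm₂ : f₂ ∈ (degE n r)ᗮ := Submodule.sub_starProjection_mem_orthogonal f
  have hf : f = f₁ + f₂ := by rw [hf₂]; abel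
  have horth : ∀ u ∈ degE n r, ∀ w ∈ (degE n r)ᗮ, ‖u + w‖ ^ 2 = ‖u‖ ^ 2 + ‖w‖ ^ 2 := by
    intro u hu w hw
    have h1 : ⟪u, w⟫_ℝ = 0 := (Submodule.mem_orthogonal _ _).1 hw u hu
    have := norm_add_sq_eq_norm_sq_add_norm_sq_of_inner_eq_zero u w h1
    rw [pow_two, pow_two, pow_two]
    exact this
  have hone : (fun _ => (1 : ℝ)) ∈ RC.FinalAux.degR n r :=
    const_mem hrn 1 (WithLp.toLp 2 (fun _ => (1 : ℝ))) (fun g => rfl)
  have hs₂ : ∑ g, f₂ g = 0 := by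
    have := orth_sum f₂ hm₂ _ hone
    simpa using this
  have hs₁ : ∑ g, f₁ g = 0 := by
    have h1 : ∑ g, f g = ∑ g, f₁ g + ∑ g, f₂ g := by
      rw [← Finset.sum_add_distrib]
      refine Finset.sum_congr rfl fun g _ => ?_
      rw [hf]; rfl
    rw [h0, hs₂, add_zero] at h1
    exact h1.symm
  have hnorm : ‖f‖ ^ 2 = ‖f₁‖ ^ 2 + ‖f₂‖ ^ 2 := by
    conv_lhs => rw [hf]
    exact horth _ hm₁ _ hm₂
  have hlt : ∀ g : alternatingGroup (Fin n), ‖lt (alternatingGroup (Fin n)) g f - f‖ ^ 2 =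
      ‖lt (alternatingGroup (Fin n)) g f₁ - f₁‖ ^ 2 +
        ‖lt (alternatingGroup (Fin n)) g f₂ - f₂‖ ^ 2 := by
    intro g
    have h1 : lt (alternatingGroup (Fin n)) g f - f =
        (lt (alternatingGroup (Fin n)) g f₁ - f₁) +
          (lt (alternatingGroup (Fin n)) g f₂ - f₂) := by
      conv_lhs => rw [hf]
      rw [map_add]
      abel
    rw [h1]
    exact horth _ ((degE n r).sub_mem (degE_lt n r g _ hm₁) hm₁) _
      ((degE n r)ᗮ.sub_mem (degE_orth_lt n r g _ hm₂) hm₂)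
  have e1 := dpart x hx f₁ hm₁ hs₁
  have e2 := energy_one (lt (alternatingGroup (Fin n))) (rt (alternatingGroup (Fin n)))
    (lt_norm (alternatingGroup (Fin n))) (fun g h v => lt_rt (alternatingGroup (Fin n)) g h v) B
    (fun i => (hB i).left) hm x hτ hlow f₂ (by rw [hsup]; exact hm₂)
  simp_rw [hlt, Finset.sum_add_distrib]
  rw [hnorm]
  have e4 : min (4 * m * τ) (2 * ε) * ‖f₁‖ ^ 2 ≤ 2 * ε * ‖f₁‖ ^ 2 :=
    mul_le_mul_of_nonneg_right (min_le_right _ _) (by positivity)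
  have e5 : min (4 * m * τ) (2 * ε) * ‖f₂‖ ^ 2 ≤ 4 * m * τ * ‖f₂‖ ^ 2 :=
    mul_le_mul_of_nonneg_right (min_le_left _ _) (by positivity)
  rw [mul_add]
  linarith

end Pool.Agent.CV
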