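import Mathlib

/-!
# CV1: groups of letters

Split the first `g * m₀` letters of `x : Fin m → α` (`g = m / m₀`) into `g` groups of `m₀` letters. `Bad x`: at least half of the groups are in `P` (`g ≤ 2 * #bad groups`).
Markov: `∑ x, #bad groups = g * #{P} * |α| ^ (m - m₀)` (a fixed group of `m₀` different letters of `x`: `card_restrict`-type bijection), so `#Bad * (g / 2) ≤ g * p * |α| ^ m`. If `x` is not bad, more than
`g / 2` groups give `ε` each, and `g / 2 ≥ m / (4 m₀)` because `g = m / m₀ ≥ m / (2 m₀)` for `m ≥ m₀`.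
-/

set_option autoImplicit false

open Finset

namespace Pool.Agent.CV

private theorem grp_card {α : Type*} [Fintype α] {m₀ m : ℕ} (P : (Fin m₀ → α) → Prop) (p : ℝ)
    (hP : (Nat.card {y : Fin m₀ → α // P y} : ℝ) ≤ p * (Fintype.card α : ℝ) ^ m₀)
    (κ : Fin m₀ → Fin m) (hκ : Function.Injective κ) (hm : m₀ ≤ m) :
    (Nat.card {x : Fin m → α // P (fun l => x (κ l))} : ℝ) ≤ p * (Fintype.card α : ℝ) ^ m := by
  classical
  let f : {x : Fin m → α // P (fun l => x (κ l))} →
      {y : Fin m₀ → α // P y} × ({i // ¬ i ∈ Set.range κ} → α) :=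
    fun x => (⟨fun l => x.1 (κ l), x.2⟩, fun i => x.1 i.1)
  have hf : Function.Injective f := by
    intro x x' h
    apply Subtype.ext
    funext i
    by_cases hi : i ∈ Set.range κ
    · obtain ⟨l, rfl⟩ := hi
      exact congrFun (congrArg Subtype.val (congrArg Prod.fst h)) l
    · exact congrFun (congrArg Prod.snd h) ⟨i, hi⟩
  have h1 := Nat.card_le_card_of_injective f hf
  have h2 : Fintype.card {i // ¬ i ∈ Set.range κ} = m - m₀ := by
    rw [Fintype.card_subtype_compl, Fintype.card_fin]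
    congr 1
    have h3 := Set.card_range_of_injective hκ
    rw [Fintype.card_fin] at h3
    exact (Fintype.card_congr (Equiv.refl _)).trans h3
  have h4 : Nat.card ({i // ¬ i ∈ Set.range κ} → α) = Fintype.card α ^ (m - m₀) := by
    rw [Nat.card_eq_fintype_card, Fintype.card_fun, h2]
  rw [Nat.card_prod, h4] at h1
  have h5 : (Nat.card {x : Fin m → α // P (fun l => x (κ l))} : ℝ) ≤
      (Nat.card {y : Fin m₀ → α // P y} : ℝ) * (Fintype.card α : ℝ) ^ (m - m₀) := by
    exact_mod_cast h1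
  refine h5.trans ((mul_le_mul_of_nonneg_right hP (by positivity)).trans (le_of_eq ?_))
  rw [mul_assoc, ← pow_add, Nat.add_sub_cancel' hm]

theorem group_lemma {α : Type*} [Fintype α] {m₀ m : ℕ} (hm₀ : 1 ≤ m₀) (hm : m₀ ≤ m)
    (P : (Fin m₀ → α) → Prop) (p : ℝ)
    (hP : (Nat.card {y : Fin m₀ → α // P y} : ℝ) ≤ p * (Fintype.card α : ℝ) ^ m₀) :
    ∃ Bad : (Fin m → α) → Prop,
      (Nat.card {x : Fin m → α // Bad x} : ℝ) ≤ 2 * p * (Fintype.card α : ℝ) ^ m ∧
      ∀ x, ¬ Bad x → ∀ e : α → ℝ, (∀ a, 0 ≤ e a) → ∀ ε : ℝ, 0 ≤ ε →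
        (∀ y, ¬ P y → ε ≤ ∑ l, e (y l)) → ε * m / (4 * m₀) ≤ ∑ i, e (x i) := by
  classical
  obtain ⟨g, hg⟩ : ∃ g, g = m / m₀ := ⟨_, rfl⟩
  have hg1 : 1 ≤ g := by rw [hg]; exact Nat.div_pos hm hm₀
  have hgm : g * m₀ ≤ m := by rw [hg]; exact Nat.div_mul_le_self m m₀
  have hgm' : m ≤ 2 * g * m₀ := by
    have h1 : m < (g + 1) * m₀ := by
      rw [hg]
      exact (Nat.div_lt_iff_lt_mul hm₀).mp (Nat.lt_succ_self _)
    nlinarith
  let ι : Fin g × Fin m₀ → Fin m := fun q => Fin.castLE hgm (finProdFinEquiv q)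
  have hι : Function.Injective ι := (Fin.castLE_injective hgm).comp finProdFinEquiv.injective
  let cnt : (Fin m → α) → ℕ := fun x => (univ.filter fun j : Fin g => P (fun l => x (ι (j, l)))).card
  refine ⟨fun x => g ≤ 2 * cnt x, ?_, ?_⟩
  · have h1 : g * (univ.filter fun x : Fin m → α => g ≤ 2 * cnt x).card ≤
        2 * ∑ j : Fin g, (univ.filter fun x : Fin m → α => P (fun l => x (ι (j, l)))).card := by
      calc g * (univ.filter fun x : Fin m → α => g ≤ 2 * cnt x).card
          = ∑ x ∈ univ.filter (fun x : Fin m → α => g ≤ 2 * cnt x), g := by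
            rw [sum_const, smul_eq_mul, mul_comm]
        _ ≤ ∑ x ∈ univ.filter (fun x : Fin m → α => g ≤ 2 * cnt x), 2 * cnt x :=
            sum_le_sum fun x hx => (mem_filter.mp hx).2
        _ ≤ ∑ x : Fin m → α, 2 * cnt x :=
            sum_le_sum_of_subset (subset_univ _)
        _ = 2 * ∑ x : Fin m → α, cnt x := by rw [mul_sum]
        _ = _ := by
            congr 1
            simp only [cnt, card_filter]
            exact sum_comm
    have h2 : ∀ j : Fin g, ((univ.filter fun x : Fin m → α => P (fun l => x (ι (j, l)))).card : ℝ) ≤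
        p * (Fintype.card α : ℝ) ^ m := by
      intro j
      have h3 := grp_card P p hP (fun l => ι (j, l)) (fun a b h => (Prod.ext_iff.mp (hι h)).2) hm
      rwa [Nat.card_eq_fintype_card, Fintype.card_subtype] at h3
    have h4 : (g : ℝ) * ((univ.filter fun x : Fin m → α => g ≤ 2 * cnt x).card : ℝ) ≤
        2 * ∑ j : Fin g, ((univ.filter fun x : Fin m → α => P (fun l => x (ι (j, l)))).card : ℝ) := by
      exact_mod_cast h1
    have h5 : ∑ j : Fin g, ((univ.filter fun x : Fin m → α => P (fun l => x (ι (j, l)))).card : ℝ) ≤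
        g * (p * (Fintype.card α : ℝ) ^ m) := by
      refine (sum_le_sum fun j _ => h2 j).trans (le_of_eq ?_)
      rw [sum_const, card_univ, Fintype.card_fin, nsmul_eq_mul]
    have hg0 : (0 : ℝ) < g := by exact_mod_cast hg1
    rw [Nat.card_eq_fintype_card, Fintype.card_subtype]
    refine le_of_mul_le_mul_left ?_ hg0
    calc (g : ℝ) * ((univ.filter fun x : Fin m → α => g ≤ 2 * cnt x).card : ℝ)
        ≤ 2 * (g * (p * (Fintype.card α : ℝ) ^ m)) := h4.trans (by linarith)
      _ = g * (2 * p * (Fintype.card α : ℝ) ^ m) := by ring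
  · intro x hx e he ε hε hP'
    have h1 : (univ.filter fun j : Fin g => P (fun l => x (ι (j, l)))).card +
        (univ.filter fun j : Fin g => ¬ P (fun l => x (ι (j, l)))).card = g := by
      rw [card_filter_add_card_filter_not, card_univ, Fintype.card_fin]
    have h2 : g ≤ 2 * (univ.filter fun j : Fin g => ¬ P (fun l => x (ι (j, l)))).card := by
      have h3 : ¬ g ≤ 2 * (univ.filter fun j : Fin g => P (fun l => x (ι (j, l)))).card := hx
      omega
    have h4 : (g : ℝ) ≤ 2 * ((univ.filter fun j : Fin g => ¬ P (fun l => x (ι (j, l)))).card : ℝ) := by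
      exact_mod_cast h2
    have h5 : ((univ.filter fun j : Fin g => ¬ P (fun l => x (ι (j, l)))).card : ℝ) * ε ≤
        ∑ i, e (x i) := by
      calc ((univ.filter fun j : Fin g => ¬ P (fun l => x (ι (j, l)))).card : ℝ) * ε
          = ∑ j ∈ univ.filter (fun j : Fin g => ¬ P (fun l => x (ι (j, l)))), ε := by
            rw [sum_const, nsmul_eq_mul]
        _ ≤ ∑ j ∈ univ.filter (fun j : Fin g => ¬ P (fun l => x (ι (j, l)))),
              ∑ l, e (x (ι (j, l))) :=
            sum_le_sum fun j hj => hP' (fun l => x (ι (j, l))) (mem_filter.mp hj).2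
        _ ≤ ∑ j : Fin g, ∑ l, e (x (ι (j, l))) :=
            sum_le_sum_of_subset_of_nonneg (subset_univ _)
              fun j _ _ => sum_nonneg fun l _ => he _
        _ = ∑ q : Fin g × Fin m₀, e (x (ι q)) := by rw [Fintype.sum_prod_type]
        _ = ∑ i ∈ univ.map ⟨ι, hι⟩, e (x i) := by
            rw [sum_map]
            rfl
        _ ≤ ∑ i, e (x i) :=
            sum_le_sum_of_subset_of_nonneg (subset_univ _) fun i _ _ => he _
    have hm0 : (0 : ℝ) < m₀ := by exact_mod_cast hm₀
    have h6 : (m : ℝ) ≤ 2 * g * m₀ := by exact_mod_cast hgm'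
    refine le_trans ?_ h5
    rw [div_le_iff₀ (by positivity)]
    have h7 : ε * (m : ℝ) ≤ ε * (2 * g * m₀) := mul_le_mul_of_nonneg_left h6 hε
    have h8 : ε * m₀ * (g : ℝ) ≤ ε * m₀ *
        (2 * ((univ.filter fun j : Fin g => ¬ P (fun l => x (ι (j, l)))).card : ℝ)) :=
      mul_le_mul_of_nonneg_left h4 (by positivity)
    nlinarith

end Pool.Agent.CV
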