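import Pool.Agent.Helper36.RS.Prob
import Pool.Agent.Helper46.RC.LevAll
import Pool.Agent.Helper84.CV.Grp

/-!
# CV7: the relative gap in low degree for many generators

`RC.lev_all` gives `m₀`, `ε`, `ε₀ = min ε 1`, and `card_bad_alt` transfers it to `Alt(n)` for the FIXED number `m₀`: `p n = 2 * 2 ^ m₀ * p₀ n`. `group_lemma` (`α = Alt(n)`, `P y = ¬ GapUpTo n m₀ r ε₀ y`) with, for fixed `j`, `f`,
`e σ = ∑ y, f y ^ 2 - ∑ y, f (σ • y) * f y ≥ 0` (Cauchy-Schwarz / `2 a b ≤ a² + b²`, the sum over `y` is invariant under `y ↦ σ • y`): `GapUpTo` for the groups says `ε₀ ∑ f² ≤ ∑ l, e (y l)`.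
-/

set_option autoImplicit false

open Finset Filter Topology

namespace Pool.Agent.CV

private theorem energy_nonneg {n j : ℕ} (σ : Equiv.Perm (Fin n)) (f : (Fin j → Fin n) → ℝ) :
    0 ≤ ∑ y, f y ^ 2 - ∑ y, f (σ • y) * f y := by
  have h1 : ∑ y, f (σ • y) ^ 2 = ∑ y, f y ^ 2 :=
    Equiv.sum_comp (MulAction.toPerm σ : Equiv.Perm (Fin j → Fin n)) (fun y => f y ^ 2)
  have h2 : ∑ y, f (σ • y) * f y ≤ ∑ y, (f (σ • y) ^ 2 + f y ^ 2) / 2 := by
    refine Finset.sum_le_sum fun y _ => ?_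
    nlinarith [sq_nonneg (f (σ • y) - f y)]
  have h3 : ∑ y, (f (σ • y) ^ 2 + f y ^ 2) / 2 = ∑ y, f y ^ 2 := by
    rw [← Finset.sum_div, Finset.sum_add_distrib, h1]
    ring
  linarith

private theorem gapUpTo_mono {n m r : ℕ} {ε ε' : ℝ} (h : ε' ≤ ε)
    {x : Fin m → Equiv.Perm (Fin n)} (hx : RC.GapUpTo n m r ε x) : RC.GapUpTo n m r ε' x := by
  intro j hj hjr f hf
  refine (hx j hj hjr f hf).trans ?_
  have : 0 ≤ ∑ y, f y ^ 2 := Finset.sum_nonneg fun y _ => sq_nonneg _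
  nlinarith

theorem gap_rel {γ : ℝ} (hγ : γ < 1) :
    ∃ m₀ : ℕ, 1 ≤ m₀ ∧ ∃ ε₀ : ℝ, 0 < ε₀ ∧ ε₀ ≤ 1 ∧ ∃ p : ℕ → ℝ, Tendsto p atTop (𝓝 0) ∧
      ∀ n : ℕ, 2 ≤ n → ∀ M : ℕ, m₀ ≤ M →
        (Nat.card {x : Fin M → alternatingGroup (Fin n) //
          ¬ RC.GapUpTo n M ⌊(n : ℝ) ^ γ⌋₊ (ε₀ * M / (4 * m₀))
            (fun i => (x i : Equiv.Perm (Fin n)))} : ℝ) ≤
          p n * (Fintype.card (alternatingGroup (Fin n)) : ℝ) ^ M := by
  obtain ⟨m₀, hm₀, ε, hε, hlim⟩ := RC.lev_all hγ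
  refine ⟨m₀, hm₀, min ε 1, lt_min hε one_pos, min_le_right _ _,
    fun n => 2 * (2 ^ m₀ * ((Nat.card {x : Fin m₀ → Equiv.Perm (Fin n) //
      ¬ RC.GapUpTo n m₀ ⌊(n : ℝ) ^ γ⌋₊ (min ε 1) x} : ℝ) / (n.factorial : ℝ) ^ m₀)), ?_, ?_⟩
  · have h0 : Tendsto (fun n : ℕ => (Nat.card {x : Fin m₀ → Equiv.Perm (Fin n) //
        ¬ RC.GapUpTo n m₀ ⌊(n : ℝ) ^ γ⌋₊ (min ε 1) x} : ℝ) / (n.factorial : ℝ) ^ m₀)
        atTop (𝓝 0) := by
      refine squeeze_zero (fun n => by positivity) (fun n => ?_) hlim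
      have hc : Nat.card {x : Fin m₀ → Equiv.Perm (Fin n) //
          ¬ RC.GapUpTo n m₀ ⌊(n : ℝ) ^ γ⌋₊ (min ε 1) x} ≤
          Nat.card {x : Fin m₀ → Equiv.Perm (Fin n) //
            ¬ RC.GapUpTo n m₀ ⌊(n : ℝ) ^ γ⌋₊ ε x} :=
        Nat.card_le_card_of_injective
          (fun x => ⟨x.1, fun h => x.2 (gapUpTo_mono (min_le_left _ _) h)⟩)
          (fun x x' h => Subtype.ext (by simpa using h))
      have hc' : (Nat.card {x : Fin m₀ → Equiv.Perm (Fin n) //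
          ¬ RC.GapUpTo n m₀ ⌊(n : ℝ) ^ γ⌋₊ (min ε 1) x} : ℝ) ≤
          Nat.card {x : Fin m₀ → Equiv.Perm (Fin n) //
            ¬ RC.GapUpTo n m₀ ⌊(n : ℝ) ^ γ⌋₊ ε x} := by
        exact_mod_cast hc
      gcongr
    have h1 := (h0.const_mul ((2 : ℝ) ^ m₀)).const_mul 2
    simpa using h1
  · intro n hn M hM
    obtain ⟨Bad, hBad, hmain⟩ := group_lemma (α := alternatingGroup (Fin n)) hm₀ hM
      (fun y => ¬ RC.GapUpTo n m₀ ⌊(n : ℝ) ^ γ⌋₊ (min ε 1)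
        (fun i => (y i : Equiv.Perm (Fin n)))) _ (RS.card_bad_alt hn)
    refine le_trans ?_ hBad
    have hc : Nat.card {x : Fin M → alternatingGroup (Fin n) //
          ¬ RC.GapUpTo n M ⌊(n : ℝ) ^ γ⌋₊ (min ε 1 * M / (4 * m₀))
            (fun i => (x i : Equiv.Perm (Fin n)))} ≤
        Nat.card {x : Fin M → alternatingGroup (Fin n) // Bad x} := by
      refine Nat.card_le_card_of_injective (fun x => ⟨x.1, ?_⟩)
        (fun x x' h => Subtype.ext (by simpa using h))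
      by_contra hx
      apply x.2
      intro j hj hjr f hf
      have hS : 0 ≤ ∑ y, f y ^ 2 := Finset.sum_nonneg fun y _ => sq_nonneg _
      have h1 := hmain x.1 hx (fun σ => ∑ y, f y ^ 2 - ∑ y, f ((σ : Equiv.Perm (Fin n)) • y) * f y)
        (fun σ => energy_nonneg _ f) (min ε 1 * ∑ y, f y ^ 2)
        (mul_nonneg (le_min hε.le zero_le_one) hS) (by
          intro y hy
          have h2 := (not_not.1 hy) j hj hjr f hf
          rw [Finset.sum_sub_distrib, Finset.sum_const, Finset.card_univ, Fintype.card_fin,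
            nsmul_eq_mul]
          nlinarith)
      rw [Finset.sum_sub_distrib, Finset.sum_const, Finset.card_univ, Fintype.card_fin,
        nsmul_eq_mul] at h1
      have h3 : ((M : ℝ) - min ε 1 * M / (4 * m₀)) * ∑ y, f y ^ 2 =
          M * ∑ y, f y ^ 2 - min ε 1 * (∑ y, f y ^ 2) * M / (4 * m₀) := by ring
      rw [h3]
      linarith
    exact_mod_cast hc

end Pool.Agent.CV
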