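import Pool.Agent.Helper36.RS.NumB

/-!
# CV6: numerics

`num1`: with `s = RS.sN δ n = ⌈δ log n⌉₊` and `M = ⌈C * Real.log n⌉₊`, `C` large (`C ≥ 128 (δ + 1) / τ` or so), for large `n`: `s ≤ 2 δ log n`, `1 / M ≤ τ / (4 s)` and `M (τ / (4 s)) ≥ 8` etc. `Δ = τ / (2 s) - 1 / M ≥ τ / (4 s)`.
`num2`: `Z n = n * (s * qN n * M)`; for large `n`: `4 Z n ≤ RS.ZN δ n` (`ZN δ n = n * (s * qN n * (3 s) ^ 4)` up to the order of the factors, `4 M ≤ (3 s) ^ 4`), and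
`(4 Z ρ) ^ (2 ^ s) / (4 Z) = (4 Z) ^ (2 ^ s - 1) * ρ ^ (2 ^ s)` is increasing in `Z`, so `RS.numB` applies.
-/

set_option autoImplicit false

open Finset Filter Topology

namespace Pool.Agent.CV

/-- The number of generators. -/
noncomputable def MN (C : ℝ) (n : ℕ) : ℕ := ⌈C * Real.log n⌉₊

/-- The Markov factor. -/
noncomputable def Zn (δ C : ℝ) (n : ℕ) : ℝ := n * (RS.sN δ n * RS.qN n * MN C n)

private theorem log_large (A : ℝ) : ∀ᶠ n : ℕ in atTop, A ≤ Real.log n :=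
  (Real.tendsto_log_atTop.comp (tendsto_natCast_atTop_atTop (R := ℝ))).eventually_ge_atTop A

private theorem sN_le {δ : ℝ} (hδ : 0 < δ) (n : ℕ) : (RS.sN δ n : ℝ) ≤ δ * Real.log n + 1 :=
  (Nat.ceil_lt_add_one (mul_nonneg hδ.le (Real.log_natCast_nonneg n))).le

theorem num1 {δ τ : ℝ} (hδ : 0 < δ) (hτ : 0 < τ) (hτ1 : τ ≤ 1 / 12) (m₀ : ℕ) :
    ∃ C : ℝ, 0 < C ∧ ∀ᶠ n : ℕ in atTop, 1 ≤ RS.sN δ n ∧ m₀ ≤ MN C n ∧ 1 ≤ MN C n ∧
      0 < τ / (2 * RS.sN δ n) - (MN C n : ℝ)⁻¹ ∧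
      1 / 2 ≤ 1 - 2 * τ - 2 / (MN C n * (τ / (2 * RS.sN δ n) - (MN C n : ℝ)⁻¹)) := by
  refine ⟨14 * (δ + 1) / τ, by positivity, ?_⟩
  filter_upwards [log_large 1, log_large ((m₀ : ℝ) / (14 * (δ + 1) / τ))] with n h1 h2
  set L := Real.log n with hL
  have hC : 0 < 14 * (δ + 1) / τ := by positivity
  have hM : 14 * (δ + 1) / τ * L ≤ MN (14 * (δ + 1) / τ) n := Nat.le_ceil _
  have hs1 : 1 ≤ RS.sN δ n := Nat.one_le_ceil_iff.2 (by
    show 0 < δ * L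
    positivity)
  have hs1' : (1 : ℝ) ≤ RS.sN δ n := by exact_mod_cast hs1
  have hs2 : (RS.sN δ n : ℝ) ≤ (δ + 1) * L := by
    have := sN_le hδ n
    have h3 : (δ + 1) * L = δ * L + L := by ring
    rw [h3]
    linarith
  have hMs : 14 * (RS.sN δ n : ℝ) / τ ≤ MN (14 * (δ + 1) / τ) n := by
    refine le_trans ?_ hM
    have h3 : 14 * (δ + 1) / τ * L = 14 * ((δ + 1) * L) / τ := by ring
    rw [h3]
    gcongr
  have hM0 : (0 : ℝ) < MN (14 * (δ + 1) / τ) n := lt_of_lt_of_le (by positivity) hMs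
  have hM1 : 1 ≤ MN (14 * (δ + 1) / τ) n := by
    have : 0 < MN (14 * (δ + 1) / τ) n := by exact_mod_cast hM0
    omega
  have hm0 : (m₀ : ℝ) ≤ MN (14 * (δ + 1) / τ) n := by
    rw [div_le_iff₀ hC] at h2
    linarith
  have hkey : (MN (14 * (δ + 1) / τ) n : ℝ) *
      (τ / (2 * RS.sN δ n) - (MN (14 * (δ + 1) / τ) n : ℝ)⁻¹) =
      MN (14 * (δ + 1) / τ) n * (τ / (2 * RS.sN δ n)) - 1 := by
    rw [mul_sub, mul_inv_cancel₀ hM0.ne']
  have h7 : 7 ≤ (MN (14 * (δ + 1) / τ) n : ℝ) * (τ / (2 * RS.sN δ n)) := by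
    have h3 : (7 : ℝ) = 14 * (RS.sN δ n : ℝ) / τ * (τ / (2 * RS.sN δ n)) := by
      field_simp
      norm_num
    rw [h3]
    exact mul_le_mul_of_nonneg_right hMs (by positivity)
  refine ⟨hs1, by exact_mod_cast hm0, hM1, ?_, ?_⟩
  · have h3 : 0 < (MN (14 * (δ + 1) / τ) n : ℝ) *
        (τ / (2 * RS.sN δ n) - (MN (14 * (δ + 1) / τ) n : ℝ)⁻¹) := by
      rw [hkey]
      linarith
    exact (mul_pos_iff_of_pos_left hM0).1 h3
  · rw [hkey]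
    have h3 : 2 / ((MN (14 * (δ + 1) / τ) n : ℝ) * (τ / (2 * RS.sN δ n)) - 1) ≤ 1 / 3 := by
      rw [div_le_div_iff₀ (by linarith) (by norm_num)]
      linarith
    linarith

theorem num2 {δ β C : ℝ} (hδ : 0 < δ) (hβ : 3 / 4 < β) (hβδ : 1 < β + δ * Real.log 2)
    (hC : 0 < C) :
    ∀ᶠ n : ℕ in atTop, 1 ≤ Zn δ C n ∧
      (4 * Zn δ C n * Real.exp (-(n : ℝ) ^ β)) ^ (2 ^ RS.sN δ n) / (4 * Zn δ C n) *
        n.factorial < 1 := by
  filter_upwards [RS.numB hδ hβ hβδ, log_large 1, log_large (4 * (C + 1) / (3 * δ) ^ 4),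
    eventually_ge_atTop 1] with n h1 h2 h3 h4
  obtain ⟨hs, hZ, hB⟩ := h1
  set L := Real.log n with hL
  have hn1 : (1 : ℝ) ≤ n := by exact_mod_cast h4
  have hs' : (1 : ℝ) ≤ RS.sN δ n := by exact_mod_cast hs
  have hq1 : 1 ≤ RS.qN n := by
    unfold RS.qN
    have : (1 : ℝ) ≤ (((n : ℝ) + 1) ^ 2 + 1) ^ Nat.sqrt (2 * n) := one_le_pow₀ (by nlinarith)
    linarith
  have hM1 : 1 ≤ MN C n := Nat.one_le_ceil_iff.2 (by
    show 0 < C * L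
    positivity)
  have hM1' : (1 : ℝ) ≤ MN C n := by exact_mod_cast hM1
  have hM2 : (MN C n : ℝ) ≤ (C + 1) * L := by
    have h5 : (MN C n : ℝ) < C * L + 1 := Nat.ceil_lt_add_one (by positivity)
    have h6 : (C + 1) * L = C * L + L := by ring
    rw [h6]
    linarith
  have hsL : δ * L ≤ RS.sN δ n := Nat.le_ceil _
  have h4M : 4 * (MN C n : ℝ) ≤ (3 * (RS.sN δ n : ℝ)) ^ 4 := by
    have h5 : 4 * (C + 1) ≤ L * (3 * δ) ^ 4 := by
      rwa [div_le_iff₀ (by positivity)] at h3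
    have h6 : (3 * (δ * L)) ^ 4 ≤ (3 * (RS.sN δ n : ℝ)) ^ 4 := by gcongr
    have h7 : 4 * (MN C n : ℝ) ≤ (3 * (δ * L)) ^ 4 := by
      have h8 : (3 * (δ * L)) ^ 4 = (L * (3 * δ) ^ 4) * L * L ^ 2 := by ring
      have h9 : 1 ≤ L ^ 2 := one_le_pow₀ h2
      have h10 : 4 * (MN C n : ℝ) ≤ 4 * (C + 1) * L := by linarith
      have h11 : 4 * (C + 1) * L ≤ (L * (3 * δ) ^ 4) * L :=
        mul_le_mul_of_nonneg_right h5 (by linarith)
      have h12 : (L * (3 * δ) ^ 4) * L ≤ (L * (3 * δ) ^ 4) * L * L ^ 2 :=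
        le_mul_of_one_le_right (by positivity) h9
      rw [h8]
      linarith
    exact h7.trans h6
  have hZ1 : 1 ≤ Zn δ C n := by
    unfold Zn
    have h5 : (1 : ℝ) ≤ RS.sN δ n * RS.qN n := one_le_mul_of_one_le_of_one_le hs' hq1
    exact one_le_mul_of_one_le_of_one_le hn1 (one_le_mul_of_one_le_of_one_le h5 hM1')
  have hZle : 4 * Zn δ C n ≤ RS.ZN δ n := by
    unfold Zn RS.ZN
    have h5 : 0 ≤ (n : ℝ) * RS.qN n * RS.sN δ n := by positivity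
    have h6 := mul_le_mul_of_nonneg_left h4M h5
    calc 4 * ((n : ℝ) * (RS.sN δ n * RS.qN n * MN C n))
        = (n : ℝ) * RS.qN n * RS.sN δ n * (4 * MN C n) := by ring
      _ ≤ _ := h6
  refine ⟨hZ1, lt_of_le_of_lt ?_ hB⟩
  apply mul_le_mul_of_nonneg_right _ (Nat.cast_nonneg _)
  obtain ⟨k, hk⟩ : ∃ k, 2 ^ RS.sN δ n = k + 1 :=
    ⟨2 ^ RS.sN δ n - 1, by have := Nat.one_le_two_pow (n := RS.sN δ n); omega⟩
  have hform : ∀ Z : ℝ, 0 < Z → (Z * Real.exp (-(n : ℝ) ^ β)) ^ (2 ^ RS.sN δ n) / Z =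
      Z ^ k * Real.exp (-(n : ℝ) ^ β) ^ (k + 1) := by
    intro Z hZ
    rw [hk, mul_pow, pow_succ Z k]
    field_simp
  rw [hform _ (by linarith), hform _ (by linarith)]
  gcongr

end Pool.Agent.CV
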