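import Pool.Agent.Helper84.CV.Lvl

/-!
# CV5: the recursion

Thresholds `τ k = τ₀ - k D`, `D = Δ + 1 / m`; `level_step` at `τ (k + 1)` (`τ (k + 1) + Δ + 1 / m = τ k`; `hc` for `τ (k + 1) ≤ τ₀` from `hc` for `τ₀`), induction on `k`: if `x` is not bad at the levels `τ k - 1 / m`, `k < s`, and
`dim (low A τ₀ ⊓ B j) ≤ ρ dim B j`, then `dim (low A (τ k) ⊓ B j) ≤ (4 Z ρ) ^ (2 ^ k) / (4 Z) * dim B j`. `cv_chain`: union of the `s` events of `level_count`.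
-/

set_option autoImplicit false

open Finset

namespace Pool.Agent.CV

open scoped InnerProductSpace

private theorem sq_step {Z ρ b d e : ℝ} (hZ : 0 < Z) (hd0 : 0 ≤ d) (hb : 0 ≤ b) {k : ℕ}
    (hd : d ≤ (4 * Z * ρ) ^ (2 ^ k) / (4 * Z) * b) (he : e ≤ 4 * Z * (d ^ 2 / b)) :
    e ≤ (4 * Z * ρ) ^ (2 ^ (k + 1)) / (4 * Z) * b := by
  refine he.trans ?_
  have h1 : d ^ 2 ≤ ((4 * Z * ρ) ^ (2 ^ k) / (4 * Z) * b) ^ 2 := by
    gcongr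
  rcases hb.eq_or_lt with h0 | h0
  · rw [← h0]
    simp
  · have h2 : d ^ 2 / b ≤ ((4 * Z * ρ) ^ (2 ^ k) / (4 * Z) * b) ^ 2 / b := by
      gcongr
    have h3 : 4 * Z * (d ^ 2 / b) ≤ 4 * Z * (((4 * Z * ρ) ^ (2 ^ k) / (4 * Z) * b) ^ 2 / b) := by
      gcongr
    refine h3.trans (le_of_eq ?_)
    have h4 : (4 * Z * ρ) ^ (2 ^ (k + 1)) = ((4 * Z * ρ) ^ (2 ^ k)) ^ 2 := by
      rw [← pow_mul, pow_succ]
    rw [h4]
    field_simp

private theorem card_union_le {X : Type*} [Finite X] {p : X → Prop} {r : ℕ → X → Prop} {s : ℕ}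
    (h : ∀ x, p x → ∃ k < s, r k x) :
    Nat.card {x // p x} ≤ ∑ k ∈ range s, Nat.card {x // r k x} := by
  classical
  haveI := Fintype.ofFinite X
  have h1 : ∀ t : X → Prop, Nat.card {x // t x} = (univ.filter t).card := by
    intro t
    rw [Nat.card_eq_fintype_card, Fintype.card_subtype]
  rw [h1]
  simp only [h1]
  refine le_trans (card_le_card ?_) (card_biUnion_le (s := range s)
    (t := fun k => univ.filter (r k)))
  intro x hx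
  rw [mem_filter] at hx
  obtain ⟨k, hk, hr⟩ := h x hx.2
  rw [mem_biUnion]
  exact ⟨k, mem_range.2 hk, by simpa using hr⟩

theorem cv_chain {E : Type*} [NormedAddCommGroup E] [InnerProductSpace ℝ E]
    [FiniteDimensional ℝ E] {G : Type*} [Group G] [Fintype G] (L R : G →* (E →ₗ[ℝ] E))
    (hL : ∀ g v, ‖L g v‖ = ‖v‖) (hR : ∀ g v, ‖R g v‖ = ‖v‖)
    (hLR : ∀ g h v, L g (R h v) = R h (L g v)) {q : ℕ} (B : Fin q → Submodule ℝ E)
    (hB : ∀ j, RS.MinInv L R (B j)) {m : ℕ} (hm : 1 ≤ m) (s : ℕ) {Z τ₀ Δ ρ : ℝ} (hZ : 0 < Z)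
    (hΔ : 0 < Δ) (hρ : 0 ≤ ρ) (hc : 1 / 2 ≤ 1 - 2 * τ₀ - 2 / (m * Δ)) :
    (Nat.card {x : Fin m → G //
      (∀ j, (Module.finrank ℝ (RC.low (RS.lapl L x) τ₀ ⊓ B j : Submodule ℝ E) : ℝ) ≤
        ρ * Module.finrank ℝ (B j)) ∧
      ∃ j, (4 * Z * ρ) ^ (2 ^ s) / (4 * Z) * (Module.finrank ℝ (B j) : ℝ) <
        (Module.finrank ℝ (RC.low (RS.lapl L x) (τ₀ - s * (Δ + (m : ℝ)⁻¹)) ⊓ B j :
          Submodule ℝ E) : ℝ)} : ℝ) * Z ≤
      s * q * m * (Fintype.card G : ℝ) ^ m := by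
  classical
  have hD : 0 < Δ + (m : ℝ)⁻¹ := by positivity
  have key : ∀ x : Fin m → G,
      (∀ j, (Module.finrank ℝ (RC.low (RS.lapl L x) τ₀ ⊓ B j : Submodule ℝ E) : ℝ) ≤
        ρ * Module.finrank ℝ (B j)) →
      (∀ k < s, ¬ BadL L B Z (τ₀ - ((k + 1 : ℕ) : ℝ) * (Δ + (m : ℝ)⁻¹) + Δ) x) → ∀ j, ∀ k ≤ s,
      (Module.finrank ℝ (RC.low (RS.lapl L x) (τ₀ - (k : ℝ) * (Δ + (m : ℝ)⁻¹)) ⊓ B j :
          Submodule ℝ E) : ℝ) ≤
        (4 * Z * ρ) ^ (2 ^ k) / (4 * Z) * (Module.finrank ℝ (B j) : ℝ) := by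
    intro x h0 hx j k
    induction k with
    | zero =>
      intro _
      have h1 := h0 j
      have h2 : τ₀ - ((0 : ℕ) : ℝ) * (Δ + (m : ℝ)⁻¹) = τ₀ := by simp
      rw [h2]
      refine h1.trans (le_of_eq ?_)
      rw [pow_zero, pow_one]
      field_simp
    | succ k ih =>
      intro hk
      have h1 := ih (by omega)
      have h2 : (0 : ℝ) ≤ ((k + 1 : ℕ) : ℝ) * (Δ + (m : ℝ)⁻¹) := by positivity
      have h3 := level_step L hL B (fun j g v hv => (hB j).left g v hv) hm x hZ hΔ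
        (τ := τ₀ - ((k + 1 : ℕ) : ℝ) * (Δ + (m : ℝ)⁻¹)) (by linarith) (hx k (by omega)) j
      have h4 : τ₀ - ((k + 1 : ℕ) : ℝ) * (Δ + (m : ℝ)⁻¹) + Δ + (m : ℝ)⁻¹ =
          τ₀ - (k : ℝ) * (Δ + (m : ℝ)⁻¹) := by
        push_cast
        ring
      rw [h4] at h3
      exact sq_step hZ (Nat.cast_nonneg _) (Nat.cast_nonneg _) h1 h3
  have h5 := card_union_le (X := Fin m → G) (s := s)
    (p := fun x => (∀ j, (Module.finrank ℝ (RC.low (RS.lapl L x) τ₀ ⊓ B j : Submodule ℝ E) : ℝ) ≤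
        ρ * Module.finrank ℝ (B j)) ∧
      ∃ j, (4 * Z * ρ) ^ (2 ^ s) / (4 * Z) * (Module.finrank ℝ (B j) : ℝ) <
        (Module.finrank ℝ (RC.low (RS.lapl L x) (τ₀ - s * (Δ + (m : ℝ)⁻¹)) ⊓ B j :
          Submodule ℝ E) : ℝ))
    (r := fun k x => BadL L B Z (τ₀ - ((k + 1 : ℕ) : ℝ) * (Δ + (m : ℝ)⁻¹) + Δ) x) (by
      rintro x ⟨h0, j, hj⟩
      by_contra hcon
      push Not at hcon
      exact absurd (key x h0 hcon j s le_rfl) (not_le.2 hj))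
  have h6 : (Nat.card {x : Fin m → G //
      (∀ j, (Module.finrank ℝ (RC.low (RS.lapl L x) τ₀ ⊓ B j : Submodule ℝ E) : ℝ) ≤
        ρ * Module.finrank ℝ (B j)) ∧
      ∃ j, (4 * Z * ρ) ^ (2 ^ s) / (4 * Z) * (Module.finrank ℝ (B j) : ℝ) <
        (Module.finrank ℝ (RC.low (RS.lapl L x) (τ₀ - s * (Δ + (m : ℝ)⁻¹)) ⊓ B j :
          Submodule ℝ E) : ℝ)} : ℝ) ≤ ∑ k ∈ range s, (Nat.card {x : Fin m → G //
        BadL L B Z (τ₀ - ((k + 1 : ℕ) : ℝ) * (Δ + (m : ℝ)⁻¹) + Δ) x} : ℝ) := by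
    exact_mod_cast h5
  calc _ ≤ (∑ k ∈ range s, (Nat.card {x : Fin m → G //
        BadL L B Z (τ₀ - ((k + 1 : ℕ) : ℝ) * (Δ + (m : ℝ)⁻¹) + Δ) x} : ℝ)) * Z :=
        mul_le_mul_of_nonneg_right h6 hZ.le
    _ = ∑ k ∈ range s, (Nat.card {x : Fin m → G //
        BadL L B Z (τ₀ - ((k + 1 : ℕ) : ℝ) * (Δ + (m : ℝ)⁻¹) + Δ) x} : ℝ) * Z := by
        rw [Finset.sum_mul]
    _ ≤ ∑ _k ∈ range s, (q * m * (Fintype.card G : ℝ) ^ m : ℝ) :=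
        Finset.sum_le_sum fun k _ => level_count L R hL hR hLR B hB Z hZ _
    _ = s * q * m * (Fintype.card G : ℝ) ^ m := by
        rw [Finset.sum_const, card_range, nsmul_eq_mul]
        ring

end Pool.Agent.CV
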