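import Pool.Agent.Helper36.RS.T2
import Pool.Agent.Helper84.CV.Rec
import Pool.Agent.Helper84.CV.Num
import Pool.Agent.Helper84.CV.Gap
import Pool.Agent.Helper84.CV.Det

/-!
# CV9: assembly
-/

set_option autoImplicit false

open Finset Filter Topology

namespace Pool.Agent.CV

open scoped InnerProductSpace
open Pool.Agent.RS

theorem step1 : ∃ C τ : ℝ, 0 < C ∧ 0 < τ ∧ ∃ b : ℕ → ℝ, Tendsto b atTop (𝓝 0) ∧
    ∀ᶠ n : ℕ in atTop, 1 ≤ MN C n ∧
      (Nat.card {x : Fin (MN C n) → alternatingGroup (Fin n) //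
        ¬ EnergyGap (2 * MN C n * τ) x} : ℝ) ≤
        b n * (Fintype.card (alternatingGroup (Fin n)) : ℝ) ^ MN C n := by
  obtain ⟨m₀, hm₀, ε₀, hε₀, hε1, p, hp, hgap⟩ := gap_rel (γ := 24 / 25) (by norm_num)
  have hm₀1 : (1 : ℝ) ≤ m₀ := by exact_mod_cast hm₀
  obtain ⟨θ, hθ⟩ : ∃ θ : ℝ, θ = ε₀ / (8 * m₀) := ⟨_, rfl⟩
  have hθ0 : 0 < θ := by rw [hθ]; positivity
  have hθ1 : θ ≤ 1 := by
    rw [hθ, div_le_one (by positivity)]
    linarith
  obtain ⟨τ, hτ⟩ : ∃ τ : ℝ, τ = θ / 12 := ⟨_, rfl⟩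
  have hτ0 : 0 < τ := by rw [hτ]; positivity
  have hτ1 : τ ≤ 1 / 12 := by rw [hτ]; linarith
  have hlog : 0.6931471803 < Real.log 2 := Real.log_two_gt_d9
  obtain ⟨C, hC, hnum1⟩ := num1 (δ := 1 / 4) (by norm_num) hτ0 hτ1 m₀
  refine ⟨C, τ, hC, hτ0, fun n => p n + 1 / (n : ℝ), ?_, ?_⟩
  · have h2 : Tendsto (fun n : ℕ => 1 / (n : ℝ)) atTop (𝓝 0) :=
      tendsto_one_div_atTop_nhds_zero_nat
    simpa using hp.add h2
  have hA := numA (γ := 24 / 25) (β := 9 / 10) (θ := θ) (by norm_num) (by norm_num) (by norm_num)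
    hθ0 hθ1
  have hB := num2 (δ := 1 / 4) (β := 9 / 10) (C := C) (by norm_num) (by norm_num)
    (by norm_num at hlog ⊢; linarith) hC
  filter_upwards [hA, hB, hnum1, eventually_ge_atTop 2] with n hnA hnB hn1 hn2
  obtain ⟨hs1, hm₀M, hM1, hΔ, hc⟩ := hn1
  obtain ⟨hZ1, hnB⟩ := hnB
  refine ⟨hM1, ?_⟩
  set r := ⌊(n : ℝ) ^ (24 / 25 : ℝ)⌋₊ with hr
  set M := MN C n with hM
  set s := sN (1 / 4) n with hs
  set Z := Zn (1 / 4) C n with hZ
  have hMr : (1 : ℝ) ≤ M := by exact_mod_cast hM1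
  have hsr : (1 : ℝ) ≤ s := by exact_mod_cast hs1
  have hZ0 : 0 < Z := by linarith
  have hn0 : (0 : ℝ) < n := by
    have : 0 < n := by omega
    exact_mod_cast this
  have hrn : r ≤ n := by
    obtain ⟨t, b, T, h1, h2, -⟩ := hnA
    omega
  obtain ⟨q, B, hq, hBmin, hBsup⟩ := two_sided (alternatingGroup (Fin n)) (degE n r)ᗮ
    (degE_orth_lt n r) (degE_orth_rt n r)
  have hqN := qN_bound n hq
  have hBle : ∀ i, B i ≤ (degE n r)ᗮ := fun i => by
    rw [← hBsup]
    exact le_iSup B i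
  set Δ := τ / (2 * s) - (M : ℝ)⁻¹ with hΔdef
  have hsD : τ - s * (Δ + (M : ℝ)⁻¹) = τ / 2 := by
    rw [hΔdef, sub_add_cancel]
    field_simp
    ring
  set εM := ε₀ * M / (4 * m₀) with hεM
  have hεθ : εM / (2 * M) = θ := by
    rw [hεM, hθ]
    field_simp
    ring
  have hεM0 : 0 < εM := by rw [hεM]; positivity
  have hεM1 : εM ≤ 2 * M := by
    rw [hεM, div_le_iff₀ (by positivity)]
    nlinarith
  set P1 : (Fin M → alternatingGroup (Fin n)) → Prop := fun x =>
    ¬ RC.GapUpTo n M r εM (fun i => (x i : Equiv.Perm (Fin n))) with hP1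
  set P2 : (Fin M → alternatingGroup (Fin n)) → Prop := fun x =>
      (∀ j, (Module.finrank ℝ (RC.low (lapl (lt (alternatingGroup (Fin n))) x) τ ⊓ B j :
        Submodule ℝ (EuclideanSpace ℝ (alternatingGroup (Fin n)))) : ℝ) ≤
        Real.exp (-(n : ℝ) ^ (9 / 10 : ℝ)) * Module.finrank ℝ (B j)) ∧
      ∃ j, (4 * Z * Real.exp (-(n : ℝ) ^ (9 / 10 : ℝ))) ^ (2 ^ s) / (4 * Z) *
        (Module.finrank ℝ (B j) : ℝ) <
        (Module.finrank ℝ (RC.low (lapl (lt (alternatingGroup (Fin n))) x)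
          (τ - s * (Δ + (M : ℝ)⁻¹)) ⊓ B j :
          Submodule ℝ (EuclideanSpace ℝ (alternatingGroup (Fin n)))) : ℝ) with hP2
  have hc1 : (Nat.card {x // P1 x} : ℝ) ≤
      p n * (Fintype.card (alternatingGroup (Fin n)) : ℝ) ^ M := hgap n hn2 M hm₀M
  have hc2 : (Nat.card {x // P2 x} : ℝ) ≤
      1 / (n : ℝ) * (Fintype.card (alternatingGroup (Fin n)) : ℝ) ^ M := by
    have h1 := cv_chain (lt (alternatingGroup (Fin n))) (rt (alternatingGroup (Fin n)))
      (lt_norm _) (rt_norm _) (fun g h v => lt_rt _ g h v) B hBmin hM1 s (Z := Z) (τ₀ := τ)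
      (Δ := Δ) (ρ := Real.exp (-(n : ℝ) ^ (9 / 10 : ℝ))) hZ0 hΔ (Real.exp_pos _).le hc
    have h2 : (s : ℝ) * q * M * (Fintype.card (alternatingGroup (Fin n)) : ℝ) ^ M ≤
        (1 / (n : ℝ) * (Fintype.card (alternatingGroup (Fin n)) : ℝ) ^ M) * Z := by
      have h3 : (1 / (n : ℝ) * (Fintype.card (alternatingGroup (Fin n)) : ℝ) ^ M) * Z =
          (s : ℝ) * qN n * M * (Fintype.card (alternatingGroup (Fin n)) : ℝ) ^ M := by
        rw [hZ, Zn]
        field_simp
        ring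
      rw [h3]
      gcongr
    exact le_of_mul_le_mul_right (h1.trans h2) hZ0
  have hgood : ∀ x : Fin M → alternatingGroup (Fin n), ¬ P1 x → ¬ P2 x →
      EnergyGap (2 * M * τ) x := by
    intro x hx1 hx2 f h0
    have hx : RC.GapUpTo n M r εM (fun i => (x i : Equiv.Perm (Fin n))) := not_not.1 hx1
    have hlow : ∀ j, (Module.finrank ℝ (RC.low (lapl (lt (alternatingGroup (Fin n))) x) τ ⊓ B j :
        Submodule ℝ (EuclideanSpace ℝ (alternatingGroup (Fin n)))) : ℝ) ≤
        Real.exp (-(n : ℝ) ^ (9 / 10 : ℝ)) * Module.finrank ℝ (B j) := by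
      intro j
      obtain ⟨t, b, T, k1, k2, k3, k4, k5, k6, k7⟩ := hnA
      have k8 := init hM1 x hx k1 k2 k3 k4 k5 hεM0.le hεM1 k6 (θ' := τ) hτ0 (by linarith)
        (lt (alternatingGroup (Fin n))) (lt_norm _) (B j) (hBmin j).left
        (no_left hrn (B j) (hBmin j).right fun f hf h hh => orth_sum f (hBle j hf) h hh)
      rw [hεθ, hτ] at k8
      have hpow : 0 < (1 - θ / 12) ^ T := by
        apply pow_pos
        linarith
      have k9 := k8.trans (mul_le_mul_of_nonneg_right k7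
        (Nat.cast_nonneg (Module.finrank ℝ (B j))))
      rw [mul_assoc] at k9
      rw [hτ]
      exact le_of_mul_le_mul_left k9 hpow
    have hbot : ∀ j, RC.low (lapl (lt (alternatingGroup (Fin n))) x) (τ / 2) ⊓ B j = ⊥ := by
      intro j
      by_contra hne
      apply hx2
      refine ⟨hlow, j, ?_⟩
      rw [hsD]
      have k1 : (1 : ℝ) ≤ (Module.finrank ℝ (RC.low (lapl (lt (alternatingGroup (Fin n))) x)
          (τ / 2) ⊓ B j :
            Submodule ℝ (EuclideanSpace ℝ (alternatingGroup (Fin n)))) : ℝ) := by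
        have := Submodule.one_le_finrank_iff.2 hne
        exact_mod_cast this
      refine lt_of_lt_of_le ?_ k1
      refine lt_of_le_of_lt ?_ hnB
      apply mul_le_mul_of_nonneg_left (finrank_le_factorial (B j))
      positivity
    have k1 := energy_all hM1 hrn (τ := τ / 2) (by positivity) x hx B hBmin hBsup hbot f h0
    refine le_trans (mul_le_mul_of_nonneg_right ?_ (sq_nonneg _)) k1
    apply le_min
    · linarith
    · have k2 : εM = 2 * M * θ := by
        rw [← hεθ]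
        field_simp
      rw [k2, hτ]
      nlinarith
  have hsub : Nat.card {x : Fin M → alternatingGroup (Fin n) // ¬ EnergyGap (2 * M * τ) x} ≤
      Nat.card {x // P1 x} + Nat.card {x // P2 x} := by
    classical
    rw [← Nat.card_sum]
    refine Nat.card_le_card_of_injective (fun x => if h : P1 x.1 then Sum.inl ⟨x.1, h⟩ else
      Sum.inr ⟨x.1, by
        by_contra h2
        exact x.2 (hgood x.1 h h2)⟩) ?_
    intro x x' hxx
    by_cases h1 : P1 x.1 <;> by_cases h2 : P1 x'.1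
    · simp only [h1, h2, dif_pos] at hxx
      have hxx' := Sum.inl_injective hxx
      exact Subtype.ext (Subtype.mk.inj hxx')
    · simp only [h1, h2, dif_pos, dif_neg, not_false_eq_true] at hxx
      cases hxx
    · simp only [h1, h2, dif_pos, dif_neg, not_false_eq_true] at hxx
      cases hxx
    · simp only [h1, h2, dif_neg, not_false_eq_true] at hxx
      have hxx' := Sum.inr_injective hxx
      exact Subtype.ext (Subtype.mk.inj hxx')
  have hsub' : (Nat.card {x : Fin M → alternatingGroup (Fin n) //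
      ¬ EnergyGap (2 * M * τ) x} : ℝ) ≤ Nat.card {x // P1 x} + Nat.card {x // P2 x} := by
    exact_mod_cast hsub
  refine hsub'.trans ?_
  rw [add_mul]
  exact add_le_add hc1 hc2

theorem t4_main : ∃ C c : ℝ, 0 < C ∧ 0 < c ∧ ∀ m : ℕ → ℕ,
    (∀ᶠ n : ℕ in atTop, C * Real.log n ≤ m n) →
    ∀ Good : (n : ℕ) → (Fin (m n) → alternatingGroup (Fin n)) → Prop,
      (∀ n x, (∀ f : alternatingGroup (Fin n) → ℂ, ∑ g, f g = 0 → f ≠ 0 → ∀ μ : ℝ,
        (∀ g, ∑ i, (f ((x i)⁻¹ * g) + f (x i * g)) = (μ : ℂ) * f g) →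
          μ ≤ 2 * m n * (1 - c)) → Good n x) →
      Tendsto (fun n : ℕ => (Nat.card {x : Fin (m n) → alternatingGroup (Fin n) // Good n x} : ℝ) /
          (Nat.card (alternatingGroup (Fin n)) : ℝ) ^ (m n)) atTop (𝓝 1) := by
  obtain ⟨C, τ, hC, hτ, b, hb, hev⟩ := step1
  refine ⟨C, τ / 4, hC, by positivity, fun m hm Good hGood => ?_⟩
  refine tendsto_good Good (fun n => 2 * b n) (by simpa using hb.const_mul 2) ?_
  filter_upwards [hev, hm] with n hn hmn
  obtain ⟨hM1, hcard⟩ := hn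
  have hMm : MN C n ≤ m n := by
    unfold MN
    exact Nat.ceil_le.2 hmn
  obtain ⟨Bad, hBad, hx⟩ := group_lemma (α := alternatingGroup (Fin n)) hM1 hMm
    (fun y => ¬ EnergyGap (2 * MN C n * τ) y) (b n) hcard
  have hMr : (1 : ℝ) ≤ MN C n := by exact_mod_cast hM1
  have hgood : ∀ x, ¬ Bad x → Good n x := by
    intro x hxb
    refine hGood n x fun f h0 hf μ hμ => ?_
    have hE : EnergyGap (τ / 2 * m n) x := by
      intro h h00
      have h1 := hx x hxb (fun a => ‖lt (alternatingGroup (Fin n)) a h - h‖ ^ 2)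
        (fun a => sq_nonneg _) (2 * MN C n * τ * ‖h‖ ^ 2) (by positivity)
        (fun y hy => (not_not.1 hy) h h00)
      have h2 : 2 * (MN C n : ℝ) * τ * ‖h‖ ^ 2 * m n / (4 * MN C n) = τ / 2 * m n * ‖h‖ ^ 2 := by
        field_simp
        ring
      rwa [h2] at h1
    have h3 := hE.complex f h0 hf μ hμ
    linarith
  have h1 : Nat.card {x : Fin (m n) → alternatingGroup (Fin n) // ¬ Good n x} ≤
      Nat.card {x : Fin (m n) → alternatingGroup (Fin n) // Bad x} := by
    refine Nat.card_le_card_of_injective (fun x => ⟨x.1, ?_⟩) (fun x x' h =>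
      Subtype.ext (by simpa using h))
    by_contra hcon
    exact x.2 (hgood x.1 hcon)
  have h2 : (Nat.card {x : Fin (m n) → alternatingGroup (Fin n) // ¬ Good n x} : ℝ) ≤
      Nat.card {x : Fin (m n) → alternatingGroup (Fin n) // Bad x} := by exact_mod_cast h1
  exact h2.trans hBad

end Pool.Agent.CV
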