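import Pool.Agent.Helper84.CV.Cnt

/-!
# CV4: one level: Markov, and the doubling step

`level_count`: for fixed `j`, `i` and fixed values of `x` off `i`, `PP L x i σ` is fixed (`PP_update`) and by `RS.expect_pair` the sum over the value of `x i` of
`trP (B j) (L (x i) * P * L (x i)⁻¹ * P)` is `card G * (trP P)² / dim B j = card G * d² / dim B j` (`PP_tr`), the terms are nonnegative (`‖P L P v‖²`; cyclicity). Markov: at most `card G / Z` values are bad
(if `d = 0` then `P = 0` on `B j` and all the terms are `0`). Sum over `j`, `i` and the other values (`sum_update`-type argument in `RS/Level.lean`).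

`level_step`: `count_low`, the bound for the terms, and `low_dim_mono` (`A = lapl`, `A' = lout`, `δ = 1 / m`, `one1_le`).
-/

set_option autoImplicit false

open Finset

namespace Pool.Agent.CV

open scoped InnerProductSpace

variable {E : Type*} [NormedAddCommGroup E] [InnerProductSpace ℝ E] [FiniteDimensional ℝ E]
  {G : Type*} [Group G]

/-- The tuple `x` is bad at the level `σ`. -/
def BadL (L : G →* (E →ₗ[ℝ] E)) {q : ℕ} (B : Fin q → Submodule ℝ E) {m : ℕ} (Z σ : ℝ)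
    (x : Fin m → G) : Prop :=
  ∃ j : Fin q, ∃ i : Fin m,
    Z * ((Module.finrank ℝ (RC.low (lout L x i) σ ⊓ B j : Submodule ℝ E) : ℝ) ^ 2 /
      (Module.finrank ℝ (B j) : ℝ)) <
      RS.trP (B j) (L (x i) * PP L x i σ * L (x i)⁻¹ * PP L x i σ)

private theorem lvl_sum_update [Fintype G] {K : ℕ} (j : Fin K) (F : (Fin K → G) → ℝ) :
    ∑ y : Fin K → G, ∑ a, F (Function.update y j a) = (Fintype.card G : ℝ) * ∑ y, F y := by
  classical
  let e : (Fin K → G) × G ≃ (Fin K → G) × G :=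
    { toFun := fun p => (Function.update p.1 j p.2, p.1 j)
      invFun := fun p => (Function.update p.1 j p.2, p.1 j)
      left_inv := fun p => by
        refine Prod.ext ?_ ?_
        · simp only [Function.update_idem, Function.update_eq_self]
        · simp only [Function.update_self]
      right_inv := fun p => by
        refine Prod.ext ?_ ?_
        · simp only [Function.update_idem, Function.update_eq_self]
        · simp only [Function.update_self] }
  have h1 : ∑ p : (Fin K → G) × G, F (Function.update p.1 j p.2) =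
      ∑ p : (Fin K → G) × G, F p.1 := Equiv.sum_comp e (fun p => F p.1)
  rw [Fintype.sum_prod_type, Fintype.sum_prod_type] at h1
  simp only at h1
  rw [h1, Finset.mul_sum]
  refine Finset.sum_congr rfl fun y _ => ?_
  rw [Finset.sum_const, Finset.card_univ, nsmul_eq_mul]

private theorem lvl_PP_idem (L : G →* (E →ₗ[ℝ] E)) {m : ℕ} (x : Fin m → G) (i : Fin m) (σ : ℝ)
    (v : E) : PP L x i σ (PP L x i σ v) = PP L x i σ v :=
  Submodule.starProjection_eq_self_iff.2 (Submodule.starProjection_apply_mem _ v)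

private theorem lvl_adj (L : G →* (E →ₗ[ℝ] E)) (hL : ∀ g v, ‖L g v‖ = ‖v‖) (g : G) (v w : E) :
    ⟪L g⁻¹ v, w⟫_ℝ = ⟪v, L g w⟫_ℝ := by
  have h1 : L g (L g⁻¹ v) = v := by
    rw [← Module.End.mul_apply, ← map_mul, mul_inv_cancel, map_one, Module.End.one_apply]
  have h2 := RC.Equiv.inner_pres (L g) (hL g) (L g⁻¹ v) w
  rw [h1] at h2
  exact h2.symm

/-- The terms are nonnegative. -/
private theorem lvl_nonneg (L : G →* (E →ₗ[ℝ] E)) (hL : ∀ g v, ‖L g v‖ = ‖v‖) {m : ℕ}
    (x : Fin m → G) (B : Submodule ℝ E) (hB : ∀ g, ∀ v ∈ B, L g v ∈ B) (σ : ℝ) (i : Fin m)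
    (g : G) : 0 ≤ RS.trP B (L g * PP L x i σ * L g⁻¹ * PP L x i σ) := by
  set P := PP L x i σ with hP
  have hinn : ∀ v, ⟪(P * L g⁻¹ * P * L g * P) v, v⟫_ℝ = ‖P (L g (P v))‖ ^ 2 := by
    intro v
    have h1 : (P * L g⁻¹ * P * L g * P) v = P (L g⁻¹ (P (L g (P v)))) := rfl
    have h2 : ∀ u v, ⟪P u, v⟫_ℝ = ⟪u, P v⟫_ℝ := fun u v => PP_symm L x i σ u v
    rw [h1, h2, lvl_adj L hL]
    have h3 : ⟪P (L g (P v)), L g (P v)⟫_ℝ =
        ⟪P (L g (P v)), P (L g (P v))⟫_ℝ := by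
      rw [← h2, lvl_PP_idem]
    rw [h3, real_inner_self_eq_norm_sq]
  have hPB : ∀ v ∈ B, P v ∈ B := PP_mem L hL B hB x i σ
  have h3 : RS.trP B (P * L g⁻¹ * P * L g * P) =
      RS.trP B (L g * P * L g⁻¹ * P) := by
    have e1 : P * L g⁻¹ * P * L g * P = (P * L g⁻¹ * P) * (L g * P) := by
      simp only [mul_assoc]
    rw [e1, RS.trP_comm B (P * L g⁻¹ * P) (L g * P)
      (fun v hv => hPB _ (hB _ _ (hPB _ hv))) (fun v hv => hB _ _ (hPB _ hv))]
    refine RS.trP_congr B _ _ fun v _ => ?_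
    change L g (P (P (L g⁻¹ (P v)))) = L g (P (L g⁻¹ (P v)))
    rw [lvl_PP_idem]
  rw [← h3]
  have h4 := RS.le_trP B (P * L g⁻¹ * P * L g * P) 0 (fun v _ => by
    rw [zero_mul, hinn]; positivity)
  rwa [zero_mul] at h4

/-- One block and one generator. -/
private def BadO (L : G →* (E →ₗ[ℝ] E)) (B : Submodule ℝ E) {m : ℕ} (Z σ : ℝ) (i : Fin m)
    (x : Fin m → G) : Prop :=
  Z * ((Module.finrank ℝ (RC.low (lout L x i) σ ⊓ B : Submodule ℝ E) : ℝ) ^ 2 /
      (Module.finrank ℝ B : ℝ)) <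
      RS.trP B (L (x i) * PP L x i σ * L (x i)⁻¹ * PP L x i σ)

open Classical in
private theorem lvl_fibre [Fintype G] (L R : G →* (E →ₗ[ℝ] E))
    (hL : ∀ g v, ‖L g v‖ = ‖v‖) (hR : ∀ g v, ‖R g v‖ = ‖v‖)
    (hLR : ∀ g h v, L g (R h v) = R h (L g v)) (B : Submodule ℝ E)
    (hB : RS.MinInv L R B) {m : ℕ} (Z : ℝ) (hZ : 0 < Z) (σ : ℝ) (i : Fin m) (x : Fin m → G) :
    ∑ a, (if BadO L B Z σ i (Function.update x i a) then Z else 0) ≤ (Fintype.card G : ℝ) := by
  set P := PP L x i σ with hP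
  set c : ℝ := (Module.finrank ℝ (RC.low (lout L x i) σ ⊓ B : Submodule ℝ E) : ℝ) ^ 2 /
      (Module.finrank ℝ B : ℝ) with hc
  have hc0 : 0 ≤ c := by positivity
  have hbad : ∀ a, BadO L B Z σ i (Function.update x i a) ↔
      Z * c < RS.trP B (L a * P * L a⁻¹ * P) := by
    intro a
    unfold BadO
    rw [PP_update, lout_update, Function.update_self]
  have hsum : ∑ a, RS.trP B (L a * P * L a⁻¹ * P) = (Fintype.card G : ℝ) * c := by
    rw [RS.expect_pair L R hL hLR B hB P P (PP_symm L x i σ) (PP_comm L R hR hLR x i σ)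
      (PP_mem L hL B hB.left x i σ) (PP_mem L hL B hB.left x i σ),
      PP_tr L hL B hB.left x i σ, hc]
    ring
  have hnn : ∀ a, 0 ≤ RS.trP B (L a * P * L a⁻¹ * P) := lvl_nonneg L hL x B hB.left σ i
  rcases eq_or_lt_of_le hc0 with h0 | h0
  · have h1 : ∀ a ∈ (univ : Finset G), RS.trP B (L a * P * L a⁻¹ * P) = 0 := by
      rw [← Finset.sum_eq_zero_iff_of_nonneg fun a _ => hnn a, hsum, ← h0, mul_zero]
    have h2 : ∀ a, ¬ BadO L B Z σ i (Function.update x i a) := by
      intro a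
      rw [hbad, h1 a (Finset.mem_univ a), ← h0, mul_zero]
      exact lt_irrefl _
    rw [Finset.sum_congr rfl fun a _ => if_neg (h2 a), Finset.sum_const_zero]
    positivity
  · have h1 : c * ∑ a, (if BadO L B Z σ i (Function.update x i a) then Z else 0) ≤
        c * (Fintype.card G : ℝ) := by
      rw [mul_comm c (Fintype.card G : ℝ), ← hsum, Finset.mul_sum]
      refine Finset.sum_le_sum fun a _ => ?_
      split_ifs with h
      · rw [hbad] at h
        rw [mul_comm]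
        exact h.le
      · rw [mul_zero]
        exact hnn a
    exact le_of_mul_le_mul_left h1 h0

open Classical in
private theorem lvl_one [Fintype G] (L R : G →* (E →ₗ[ℝ] E))
    (hL : ∀ g v, ‖L g v‖ = ‖v‖) (hR : ∀ g v, ‖R g v‖ = ‖v‖)
    (hLR : ∀ g h v, L g (R h v) = R h (L g v)) (B : Submodule ℝ E)
    (hB : RS.MinInv L R B) {m : ℕ} (Z : ℝ) (hZ : 0 < Z) (σ : ℝ) (i : Fin m) :
    ∑ x : Fin m → G, (if BadO L B Z σ i x then Z else 0) ≤ (Fintype.card G : ℝ) ^ m := by
  have h1 := lvl_sum_update i (fun x : Fin m → G => if BadO L B Z σ i x then Z else 0)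
  have h2 : ∑ y : Fin m → G, ∑ a, (if BadO L B Z σ i (Function.update y i a) then Z else 0) ≤
      ∑ _y : Fin m → G, (Fintype.card G : ℝ) :=
    Finset.sum_le_sum fun y _ => lvl_fibre L R hL hR hLR B hB Z hZ σ i y
  rw [h1, Finset.sum_const, Finset.card_univ, Fintype.card_fun, Fintype.card_fin,
    nsmul_eq_mul] at h2
  push_cast at h2
  have h3 : (0 : ℝ) < Fintype.card G := by exact_mod_cast Fintype.card_pos
  rw [mul_comm ((Fintype.card G : ℝ) ^ m)] at h2
  exact le_of_mul_le_mul_left h2 h3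

theorem level_count [Fintype G] (L R : G →* (E →ₗ[ℝ] E))
    (hL : ∀ g v, ‖L g v‖ = ‖v‖) (hR : ∀ g v, ‖R g v‖ = ‖v‖)
    (hLR : ∀ g h v, L g (R h v) = R h (L g v)) {q : ℕ} (B : Fin q → Submodule ℝ E)
    (hB : ∀ j, RS.MinInv L R (B j)) {m : ℕ} (Z : ℝ) (hZ : 0 < Z) (σ : ℝ) :
    (Nat.card {x : Fin m → G // BadL L B Z σ x} : ℝ) * Z ≤
      q * m * (Fintype.card G : ℝ) ^ m := by
  classical
  have h1 : (Nat.card {x : Fin m → G // BadL L B Z σ x} : ℝ) * Z =
      ∑ x : Fin m → G, (if BadL L B Z σ x then Z else 0) := by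
    rw [Nat.card_eq_fintype_card, Fintype.card_subtype, ← Finset.sum_filter, Finset.sum_const,
      nsmul_eq_mul]
  have h2 : ∀ x : Fin m → G, (if BadL L B Z σ x then Z else 0) ≤
      ∑ j, ∑ i, (if BadO L (B j) Z σ i x then Z else 0) := by
    intro x
    have hnn : ∀ (j : Fin q) (i : Fin m), 0 ≤ (if BadO L (B j) Z σ i x then Z else 0) := by
      intro j i
      split_ifs
      · exact hZ.le
      · exact le_rfl
    split_ifs with h
    · obtain ⟨j, i, hji⟩ := h
      have hb : BadO L (B j) Z σ i x := hji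
      have e1 : Z = (if BadO L (B j) Z σ i x then Z else 0) := (if_pos hb).symm
      calc Z = (if BadO L (B j) Z σ i x then Z else 0) := e1
        _ ≤ ∑ i, (if BadO L (B j) Z σ i x then Z else 0) :=
          Finset.single_le_sum (f := fun i => if BadO L (B j) Z σ i x then Z else 0)
            (fun i _ => hnn j i) (Finset.mem_univ i)
        _ ≤ ∑ j, ∑ i, (if BadO L (B j) Z σ i x then Z else 0) :=
          Finset.single_le_sum (f := fun j => ∑ i, if BadO L (B j) Z σ i x then Z else 0)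
            (fun j _ => Finset.sum_nonneg fun i _ => hnn j i) (Finset.mem_univ j)
    · exact Finset.sum_nonneg fun j _ => Finset.sum_nonneg fun i _ => hnn j i
  rw [h1]
  calc ∑ x : Fin m → G, (if BadL L B Z σ x then Z else 0)
      ≤ ∑ x : Fin m → G, ∑ j, ∑ i, (if BadO L (B j) Z σ i x then Z else 0) :=
        Finset.sum_le_sum fun x _ => h2 x
    _ = ∑ j, ∑ i, ∑ x : Fin m → G, (if BadO L (B j) Z σ i x then Z else 0) := by
        rw [Finset.sum_comm]
        refine Finset.sum_congr rfl fun j _ => ?_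
        rw [Finset.sum_comm]
    _ ≤ ∑ _j : Fin q, ∑ _i : Fin m, (Fintype.card G : ℝ) ^ m :=
        Finset.sum_le_sum fun j _ => Finset.sum_le_sum fun i _ =>
          lvl_one L R hL hR hLR (B j) (hB j) Z hZ σ i
    _ = q * m * (Fintype.card G : ℝ) ^ m := by
        simp only [Finset.sum_const, Finset.card_univ, Fintype.card_fin, nsmul_eq_mul]
        ring

theorem level_step (L : G →* (E →ₗ[ℝ] E)) (hL : ∀ g v, ‖L g v‖ = ‖v‖) {q : ℕ}
    (B : Fin q → Submodule ℝ E) (hB : ∀ j g, ∀ v ∈ B j, L g v ∈ B j) {m : ℕ} (hm : 1 ≤ m)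
    (x : Fin m → G) {Z τ Δ : ℝ} (hZ : 0 < Z) (hΔ : 0 < Δ)
    (hc : 1 / 2 ≤ 1 - 2 * τ - 2 / (m * Δ)) (hx : ¬ BadL L B Z (τ + Δ) x) (j : Fin q) :
    (Module.finrank ℝ (RC.low (RS.lapl L x) τ ⊓ B j : Submodule ℝ E) : ℝ) ≤
      4 * Z * ((Module.finrank ℝ (RC.low (RS.lapl L x) (τ + Δ + (m : ℝ)⁻¹) ⊓ B j :
        Submodule ℝ E) : ℝ) ^ 2 / (Module.finrank ℝ (B j) : ℝ)) := by
  have hmR : (0 : ℝ) < m := by exact_mod_cast hm
  have h1 := count_low L hL hm x (B j) (hB j) hΔ hc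
  set d : ℝ := (Module.finrank ℝ (RC.low (RS.lapl L x) (τ + Δ + (m : ℝ)⁻¹) ⊓ B j :
    Submodule ℝ E) : ℝ) with hd
  have hpres : ∀ v ∈ B j, RS.lapl L x v ∈ B j := by
    intro v hv
    rw [lapl_eq_sum, LinearMap.sum_apply]
    refine Submodule.sum_mem _ fun i _ => ?_
    rw [one1_apply]
    exact (B j).smul_mem _ ((B j).sub_mem ((B j).sub_mem ((B j).smul_mem _ hv)
      (hB j _ v hv)) (hB j _ v hv))
  have h2 : ∀ i, (Module.finrank ℝ (RC.low (lout L x i) (τ + Δ) ⊓ B j : Submodule ℝ E) : ℝ) ≤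
      d := by
    intro i
    have h3 := low_dim_mono (RS.lapl L x) (lout L x i) (RS.lapl_symm L hL x)
      (lout_symm L hL x i) (δ := (m : ℝ)⁻¹) (fun v => by
        have h4 : RS.lapl L x v = lout L x i v + one1 L m (x i) v := by
          rw [lout_apply, sub_add_cancel]
        rw [h4, inner_add_left]
        have := one1_le L hL m (x i) v
        linarith) (B j) hpres (τ + Δ)
    rw [hd]
    exact_mod_cast h3
  have h3 : ∀ i, RS.trP (B j) (L (x i) * PP L x i (τ + Δ) * L (x i)⁻¹ * PP L x i (τ + Δ)) ≤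
      Z * (d ^ 2 / (Module.finrank ℝ (B j) : ℝ)) := by
    intro i
    have h4 : ¬ (Z * ((Module.finrank ℝ (RC.low (lout L x i) (τ + Δ) ⊓ B j :
        Submodule ℝ E) : ℝ) ^ 2 / (Module.finrank ℝ (B j) : ℝ)) <
        RS.trP (B j) (L (x i) * PP L x i (τ + Δ) * L (x i)⁻¹ * PP L x i (τ + Δ))) :=
      fun h => hx ⟨j, i, h⟩
    refine (not_lt.1 h4).trans (mul_le_mul_of_nonneg_left ?_ hZ.le)
    refine div_le_div_of_nonneg_right ?_ (Nat.cast_nonneg _)
    exact pow_le_pow_left₀ (Nat.cast_nonneg _) (h2 i) 2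
  have h4 : ∑ i, RS.trP (B j) (L (x i) * PP L x i (τ + Δ) * L (x i)⁻¹ * PP L x i (τ + Δ)) ≤
      m * (Z * (d ^ 2 / (Module.finrank ℝ (B j) : ℝ))) := by
    refine (Finset.sum_le_sum fun i _ => h3 i).trans (le_of_eq ?_)
    rw [Finset.sum_const, Finset.card_univ, Fintype.card_fin, nsmul_eq_mul]
  have h5 : (m : ℝ) * Module.finrank ℝ (RC.low (RS.lapl L x) τ ⊓ B j : Submodule ℝ E) ≤
      m * (4 * Z * (d ^ 2 / (Module.finrank ℝ (B j) : ℝ))) := by
    calc (m : ℝ) * Module.finrank ℝ (RC.low (RS.lapl L x) τ ⊓ B j : Submodule ℝ E)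
        ≤ 4 * ∑ i, RS.trP (B j) (L (x i) * PP L x i (τ + Δ) * L (x i)⁻¹ *
          PP L x i (τ + Δ)) := h1
      _ ≤ 4 * (m * (Z * (d ^ 2 / (Module.finrank ℝ (B j) : ℝ)))) :=
          mul_le_mul_of_nonneg_left h4 (by norm_num)
      _ = m * (4 * Z * (d ^ 2 / (Module.finrank ℝ (B j) : ℝ))) := by ring
  exact le_of_mul_le_mul_left h5 hmR

end Pool.Agent.CV
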